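import Pool.Agent.H5Red.Stm

/-!
# Counting linear maps with a given composition (piece ALP)
-/

set_option autoImplicit false

namespace Pool.Agent.H5Red

open Module Equiv Pool.Agent.H5Sym Pool.Agent.H5Lin Pool.Agent.H5Thr

namespace ALP

theorem card_dual (m : ℕ) : Nat.card (Dual F2 (Fin m → F2)) = 2 ^ m := by
  rw [← Nat.card_congr (Pi.basisFun F2 (Fin m)).toDualEquiv.toEquiv, Nat.card_fun]
  simp

theorem finite_lin (m : ℕ) : Finite ((Fin m → F2) →ₗ[F2] K4) :=
  Finite.of_injective (fun f : (Fin m → F2) →ₗ[F2] K4 => (f : (Fin m → F2) → K4))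
    DFunLike.coe_injective

theorem finite_dual (m : ℕ) : Finite (Dual F2 (Fin m → F2)) :=
  Finite.of_injective (fun f : (Fin m → F2) →ₗ[F2] F2 => (f : (Fin m → F2) → F2))
    DFunLike.coe_injective

theorem eq_one {a : F2} (h : a ≠ 0) : a = 1 := by
  revert a
  decide

theorem csup_eq {P : ℕ} (ζ : Dual F2 (Bool × Fin P → K4)) :
    csup ζ = Nat.card {b : Bool × Fin P // ∃ a : K4, ζ (Pi.single b a) ≠ 0} := by
  unfold csup
  have key : ∀ (d d' : DecidableEq (Bool × Fin P)),
      Nat.card {b : Bool × Fin P // ∃ a : K4, ζ (@Pi.single _ (fun _ => K4) _ d b a) ≠ 0} =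
      Nat.card {b : Bool × Fin P // ∃ a : K4, ζ (@Pi.single _ (fun _ => K4) _ d' b a) ≠ 0} := by
    intro d d'
    rw [Subsingleton.elim d d']
  exact key _ _

variable {P m : ℕ} {β : Type} (ι : Bool × Fin P ↪ β)

theorem ctr_single [DecidableEq β] (α : Bool × Fin P → ((Fin m → F2) →ₗ[F2] K4))
    (s : Bool × Fin P) (x : Fin m → F2) :
    ctr ι α (Pi.single (ι s) x) = Pi.single s (α s x) := by
  funext s'
  unfold ctr
  rw [LinearMap.pi_apply, LinearMap.comp_apply, LinearMap.proj_apply]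
  by_cases h : s' = s
  · subst h
    rw [Pi.single_eq_same, Pi.single_eq_same]
  · rw [Pi.single_eq_of_ne (fun h' => h (ι.injective h')), map_zero, Pi.single_eq_of_ne h]

end ALP

open ALP in
theorem t_ALP : S_ALP := by
  classical
  intro P m β _ ι ζ φ
  have := finite_lin m
  have := finite_dual m
  have hk : ∀ s : {b : Bool × Fin P // ∃ a : K4, ζ (Pi.single b a) ≠ 0},
      ∃ k : K4, ζ (Pi.single s.1 k) = 1 := fun s => by
    obtain ⟨a, ha⟩ := s.2
    exact ⟨a, eq_one ha⟩
  choose k hk using hk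
  let S : Type := {b : Bool × Fin P // ∃ a : K4, ζ (Pi.single b a) ≠ 0}
  let G : Type := {α : Bool × Fin P → ((Fin m → F2) →ₗ[F2] K4) // ζ.comp (ctr ι α) = φ}
  let Θ : G × (S → Dual F2 (Fin m → F2)) → (Bool × Fin P → ((Fin m → F2) →ₗ[F2] K4)) :=
    fun q s => q.1.1 s + (if h : ∃ a : K4, ζ (Pi.single s a) ≠ 0 then
      (q.2 ⟨s, h⟩).smulRight (k ⟨s, h⟩) else 0)
  have hΘ : ∀ q : G × (S → Dual F2 (Fin m → F2)), ∀ (s : S) (x : Fin m → F2),
      ζ (Pi.single s.1 (Θ q s.1 x)) = φ (Pi.single (ι s.1) x) + q.2 s x := by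
    intro q s x
    have h1 : Θ q s.1 x = q.1.1 s.1 x + (q.2 s x) • k s := by
      show (q.1.1 s.1 + (if h : ∃ a : K4, ζ (Pi.single s.1 a) ≠ 0 then
        (q.2 ⟨s.1, h⟩).smulRight (k ⟨s.1, h⟩) else 0)) x = _
      rw [dif_pos s.2]
      rfl
    have h0 : φ (Pi.single (ι s.1) x) = ζ (Pi.single s.1 (q.1.1 s.1 x)) := by
      have h4 := LinearMap.congr_fun q.1.2 (Pi.single (ι s.1) x)
      rw [LinearMap.comp_apply, ctr_single] at h4
      exact h4.symm
    rw [h1, Pi.single_add, map_add, h0]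
    congr 1
    have h2 : (Pi.single s.1 (q.2 s x • k s) : Bool × Fin P → K4) =
        q.2 s x • Pi.single s.1 (k s) := by
      rw [Pi.single_smul]
    rw [h2, map_smul, hk s, smul_eq_mul, mul_one]
  have hinj : Function.Injective Θ := by
    intro q q' h
    have hu : q.2 = q'.2 := by
      funext s
      refine LinearMap.ext fun x => ?_
      have h1 := hΘ q s x
      rw [h, hΘ q' s x] at h1
      exact (add_left_cancel h1).symm
    have hα : q.1 = q'.1 := by
      refine Subtype.ext (funext fun s => ?_)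
      have h1 : Θ q s = Θ q' s := by rw [h]
      have h2 : q.1.1 s + (if h : ∃ a : K4, ζ (Pi.single s a) ≠ 0 then
          (q.2 ⟨s, h⟩).smulRight (k ⟨s, h⟩) else 0) =
          q'.1.1 s + (if h : ∃ a : K4, ζ (Pi.single s a) ≠ 0 then
          (q'.2 ⟨s, h⟩).smulRight (k ⟨s, h⟩) else 0) := h1
      rw [hu] at h2
      exact add_right_cancel h2
    exact Prod.ext hα hu
  have h3 := Nat.card_le_card_of_injective Θ hinj
  rw [Nat.card_prod, Nat.card_fun, ALP.card_dual, ← pow_mul] at h3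
  rw [csup_eq]
  exact h3

end Pool.Agent.H5Red
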