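import Pool.Agent.H5Red.Stm3

/-!
# Equivariant Turing reductions: piece EXT

A vector in the span of a set `S` over the field with two elements is a sum of at most `n` elements of `S`
if `n` is at least the dimension (piece of helper51 for helper5).
-/

set_option autoImplicit false

namespace Pool.Agent.H5Red

open Module Pool.Agent.H5Sym Pool.Agent.H5Lin Pool.Agent.H5Thr

theorem t_EXT : S_EXT := by
  classical
  intro U _ _ _ n hn S q hq
  obtain ⟨b, hbS, hspan, hli⟩ := exists_linearIndependent F2 S
  have : Fintype b := Fintype.ofFinite b
  have hcard : Fintype.card b ≤ n := (hli.fintype_card_le_finrank).trans hn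
  rw [← hspan] at hq
  have hq' : q ∈ Submodule.span F2 (Set.range (Subtype.val : b → U)) := by
    rwa [Subtype.range_coe]
  rw [Submodule.mem_span_range_iff_exists_fun] at hq'
  obtain ⟨c, hc⟩ := hq'
  obtain ⟨e⟩ : Nonempty (b ↪ Fin n) :=
    Function.Embedding.nonempty_of_card_le (by simpa using hcard)
  refine ⟨Function.extend e (fun x => c x • (x : U)) 0, fun i => ?_, ?_⟩
  · by_cases h : ∃ x, e x = i
    · obtain ⟨x, rfl⟩ := h
      rw [e.injective.extend_apply]
      have h01 : ∀ z : F2, z = 0 ∨ z = 1 := by decide
      rcases h01 (c x) with h | h
      · left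
        rw [h, zero_smul]
      · right
        rw [h, one_smul]
        exact hbS x.2
    · left
      exact Function.extend_apply' _ _ _ h
  · rw [← hc]
    exact Fintype.sum_of_injective e e.injective _ _
      (fun i hi => Function.extend_apply' _ _ _ hi)
      (fun x => (e.injective.extend_apply (fun x => c x • (x : U)) 0 x).symm)

end Pool.Agent.H5Red
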