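import Pool.Agent.H5Red.Stm

/-!
# GRO: growth of the two sides
-/

set_option autoImplicit false

namespace Pool.Agent.H5Red

namespace GRO

theorem expo (A d : ℕ) : ∃ m₀ : ℕ, ∀ m, m₀ ≤ m → A * (m + 1) ^ d < 2 ^ m := by
  have h := tendsto_pow_const_div_const_pow_of_one_lt d (one_lt_two : (1 : ℝ) < 2)
  have hA : (0 : ℝ) < 1 / (2 * ((A : ℝ) + 1)) := by positivity
  have h1 := h.eventually (gt_mem_nhds hA)
  obtain ⟨n₀, hn₀⟩ := Filter.eventually_atTop.1 h1
  refine ⟨n₀, fun m hm => ?_⟩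
  have h2 := hn₀ (m + 1) (by omega)
  rw [div_lt_div_iff₀ (by positivity) (by positivity), one_mul] at h2
  have h3 : ((m + 1) ^ d * (2 * (A + 1)) : ℕ) < 2 ^ (m + 1) := by
    have : (((m + 1) ^ d * (2 * (A + 1)) : ℕ) : ℝ) < ((2 ^ (m + 1) : ℕ) : ℝ) := by
      push_cast
      push_cast at h2
      exact h2
    exact_mod_cast this
  have h4 : 0 < (m + 1) ^ d := by positivity
  have h5 : (m + 1) ^ d * (2 * (A + 1)) = 2 * (A * (m + 1) ^ d) + 2 * (m + 1) ^ d := by ring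
  have h6 : 2 ^ (m + 1) = 2 * 2 ^ m := by ring
  omega

end GRO

theorem t_GRO : S_GRO := by
  intro c c₀ d f g K hc hK
  obtain ⟨m₁, hm₁⟩ := GRO.expo (2 ^ (c * K) * g ^ d) d
  refine ⟨max m₁ (K + f + 1), fun m hm s o hs ho => ⟨?_, ?_⟩⟩
  · have hm2 : K + f + 1 ≤ m := le_trans (le_max_right _ _) hm
    have hf : f ≤ 2 ^ f := Nat.lt_two_pow_self.le
    have h1 : 2 ^ K * s ≤ 2 ^ (K + f + m * c₀) := by
      calc 2 ^ K * s ≤ 2 ^ K * (2 ^ f * 2 ^ (m * c₀)) :=
            Nat.mul_le_mul_left _ (le_trans hs (Nat.mul_le_mul_right _ hf))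
        _ = 2 ^ (K + f + m * c₀) := by rw [pow_add, pow_add]; ring
    calc (2 ^ K * s) ^ c ≤ (2 ^ (K + f + m * c₀)) ^ c := Nat.pow_le_pow_left h1 _
      _ = 2 ^ ((K + f + m * c₀) * c) := by rw [← pow_mul]
      _ < 2 ^ (m * K) := by
        apply Nat.pow_lt_pow_right (by norm_num)
        calc (K + f + m * c₀) * c < (2 * m + m * c₀) * c := by
              apply Nat.mul_lt_mul_of_pos_right _ hc
              omega
          _ = m * (c * (c₀ + 2)) := by ring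
          _ ≤ m * K := Nat.mul_le_mul_left _ hK
  · have h1 := hm₁ m (le_trans (le_max_left _ _) hm)
    calc 2 ^ (c * K) * o ≤ 2 ^ (c * K) * (g * (m + 1)) ^ d := Nat.mul_le_mul_left _ ho
      _ = 2 ^ (c * K) * g ^ d * (m + 1) ^ d := by rw [mul_pow]; ring
      _ < 2 ^ m := h1

end Pool.Agent.H5Red
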