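import Pool.Agent.H5Red.Main2
import Pool.Agent.H5Red.Gro
import Pool.Agent.H5Thr.Cir

/-!
# Equivariant reductions from the parameterised clique problem to `p-log-SAT`
-/

set_option autoImplicit false

namespace Pool.Agent.H5Red

open Module Equiv Pool.Agent.H5Sym Pool.Agent.H5Lin Pool.Agent.H5Thr

universe u

/-- the sets with at most `d` literals over `L` variables -/
abbrev Cl (L d : ℕ) : Type := {S : Finset (Fin L × Bool) // S.card ≤ d}

theorem final (hA : S_ALP) (hG : S_ALP → S_GUD2) (hT : S_TWO) :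
    ∃ c : ℕ, 0 < c ∧ (∀ (β : Type) [Finite β] (m : ℕ) (D : Type u)
      (C : LCircuit.{0, u} ((β × (Fin m → F2)) × (β × (Fin m → F2))) D) [Finite C.Gate],
      C.OddFields → ∀ (inp : Bool → D)
      (act : C.Action fun v : β → (Fin m → F2) => pairPerm (trans v)) (O : Set C.Gate),
      (∀ v, ∀ g ∈ O, act.gate v g ∈ O) → ∀ Q : (O → D) → Prop,
      (∀ x, Partite x → (Q (fun g => C.eval (inp ∘ x) g.1) ↔ HasClique x)) →
      c ≤ Nat.card β →
      2 ^ (m * Nat.card β) ≤ (2 ^ Nat.card β * C.size) ^ c ∨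
        2 ^ (2 * m) ≤ 2 ^ (c * Nat.card β) * Nat.card O) ∧
    ∀ c₀ d f g K : ℕ, c * (c₀ + 2) ≤ K → ∃ m₀ : ℕ, ∀ m, m₀ ≤ m → ∀ (D : Type u)
      (C : LCircuit.{0, u} ((Fin K × (Fin m → F2)) × (Fin K × (Fin m → F2))) D) [Finite C.Gate],
      C.OddFields → C.size ≤ f * 2 ^ (m * c₀) → ∀ (inp : Bool → D)
      (act : C.Action fun v : Fin K → (Fin m → F2) => pairPerm (trans v)) (L : ℕ),
      L ≤ g * (m + 1) → ∀ (Out : Cl L d → C.Gate),
      (∀ v S, act.gate v (Out S) ∈ Set.range Out) → ∀ acc : D → Prop,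
      ¬ ∀ x, Partite x → ((∃ a : Fin L → Bool, ∀ S, acc (C.eval (inp ∘ x) (Out S)) →
        ∃ l ∈ S.1, a l.1 = l.2) ↔ HasClique x) := by
  classical
  obtain ⟨c, hc, h⟩ := main2.{u} hA hG hT
  refine ⟨c, hc, h, fun c₀ d f g K hK => ?_⟩
  obtain ⟨m₀, hm⟩ := t_GRO c c₀ d f (2 * g + 1) K hc hK
  refine ⟨m₀, fun m hmm D C _ hodd hs inp act L hL Out hOut acc hQ => ?_⟩
  have hcl : Nat.card (Set.range Out) ≤ ((2 * g + 1) * (m + 1)) ^ d := by
    have h1 : Nat.card (Set.range Out) ≤ Nat.card (Cl L d) :=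
      Nat.card_le_card_of_surjective (Set.rangeFactorization Out)
        Set.rangeFactorization_surjective
    refine h1.trans ((Cir.card_sm (Fin L × Bool) d).trans
      (Nat.pow_le_pow_left ?_ d))
    have h2 : Nat.card (Fin L × Bool) = L * 2 := by
      rw [Nat.card_prod, Nat.card_eq_fintype_card, Fintype.card_fin, Nat.card_eq_fintype_card,
        Fintype.card_bool]
    rw [h2]
    have h3 : (2 * g + 1) * (m + 1) = 2 * (g * (m + 1)) + (m + 1) := by ring
    rw [h3]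
    omega
  obtain ⟨h1, h2⟩ := hm m hmm _ _ hs hcl
  have hcard : Nat.card (Fin K) = K := by simp
  have hcK : c ≤ K := le_trans (Nat.le_mul_of_pos_right c (Nat.succ_pos _)) hK
  rcases h (Fin K) m D C hodd inp act (Set.range Out)
    (by
      rintro v _ ⟨S, rfl⟩
      exact hOut v S)
    (fun y => ∃ a : Fin L → Bool, ∀ S : Cl L d, acc (y ⟨Out S, S, rfl⟩) →
      ∃ l ∈ S.1, a l.1 = l.2) hQ (by rw [hcard]; exact hcK) with h3 | h3
  · rw [hcard] at h3
    exact absurd h1 (not_lt.2 h3)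
  · rw [hcard] at h3
    have h4 : 2 ^ m ≤ 2 ^ (2 * m) := Nat.pow_le_pow_right (by norm_num) (by omega)
    exact absurd (h2.trans_le h4) (not_lt.2 h3)

end Pool.Agent.H5Red
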