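import Pool.Agent.H5Red.Main3

/-!
# Equivariant Turing reductions from the parameterised clique problem
-/

set_option autoImplicit false

namespace Pool.Agent.H5Red

open Module Equiv Pool.Agent.H5Sym Pool.Agent.H5Lin Pool.Agent.H5Thr

universe u

theorem turing (hA : S_ALP) (hG : S_ALP → S_GUD2) (hE : S_EXT) (hZ : S_ZC) (hN : S_NUM3) :
    ∃ c : ℕ, 0 < c ∧ ∀ (β : Type) [Finite β] (m : ℕ) (D : Type u)
      (M : OracleCircuit ((β × (Fin m → F2)) × (β × (Fin m → F2))) D) [Finite M.C.Gate]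
      [Finite M.J], M.C.OddFields → ∀ (inp : Bool → D)
      (_ : M.Action fun v : β → (Fin m → F2) => pairPerm (trans v)) (R : ℕ),
      (∀ j, (M.args j).ncard ≤ R) → ∀ (r : ℕ) (acc : D → Prop),
      (∀ x, Partite x → (acc (M.output r (inp ∘ x)) ↔ HasClique x)) → c ≤ Nat.card β →
      2 ^ (m * Nat.card β) ≤
        (2 ^ Nat.card β * (R + 1) ^ Nat.card β * (M.C.size + Nat.card M.J)) ^ c := by
  classical
  obtain ⟨c, hc, h⟩ := t_EXP
  refine ⟨96 * c, by positivity, ?_⟩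
  intro β _ m D M _ _ hodd inp a R hR r acc hQ hK
  have : Fintype β := Fintype.ofFinite β
  by_contra hcon
  push Not at hcon
  obtain ⟨κ, hκ1, hκ2⟩ : ∃ κ, 24 * κ ≤ Nat.card β ∧ Nat.card β < 24 * κ + 24 :=
    ⟨Nat.card β / 24, by omega, by omega⟩
  have hκc : c ≤ κ := by omega
  have hκ0 : 0 < κ := by omega
  obtain ⟨σ, hσ⟩ := h κ hκc
  obtain ⟨t, ht1, ht2⟩ : ∃ t, κ ≤ c * t ∧ c * t < κ + c := by
    refine ⟨(κ + c - 1) / c, ?_, ?_⟩
    · have := Nat.div_add_mod (κ + c - 1) c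
      have := Nat.mod_lt (κ + c - 1) hc
      omega
    · have := Nat.mul_div_le (κ + c - 1) c
      omega
  have ht0 : 0 < t := Nat.pos_of_ne_zero (by rintro rfl; simp at ht1; omega)
  have hσ' : ∀ q : Dual F2 (Fin 3 × Fin (12 * κ) → F2), 3 * κ ≤ wt q → wt q < 6 * κ →
      t ≤ csup (q.comp (bdry (idn (12 * κ)) σ)) := by
    intro q h1 h2
    have h3 := hσ q h1 h2
    by_contra h4
    push Not at h4
    have h5 : c * (csup (q.comp (bdry (idn (12 * κ)) σ)) + 1) ≤ c * t := Nat.mul_le_mul_left c h4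
    have h6 : c * (csup (q.comp (bdry (idn (12 * κ)) σ)) + 1) =
      c * csup (q.comp (bdry (idn (12 * κ)) σ)) + c := by ring
    omega
  obtain ⟨ι⟩ : Nonempty (Bool × Fin (12 * κ) ↪ β) := by
    refine Function.Embedding.nonempty_of_card_le ?_
    rw [Fintype.card_prod, Fintype.card_bool, Fintype.card_fin, ← Nat.card_eq_fintype_card]
    omega
  obtain ⟨α, hα, -⟩ := hG hA (12 * κ) m κ t t β ι σ le_rfl hσ'
    ({ζ : Dual F2 (β → (Fin m → F2)) |
      ∃ ξ ∈ a.act.special, ∃ η ∈ a.act.special, ζ = ξ + η} ∪ thetaF a (3 * (12 * κ))) ∅ (by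
      rw [Set.ncard_empty, zero_mul, add_zero]
      have h1 : (thetaF a (3 * (12 * κ))).ncard ≤ Nat.card M.J * (R + 1) ^ (3 * (12 * κ)) :=
        hZ (β → (Fin m → F2)) M.J M.C.Gate a.orc a.act.gate M.args R (3 * (12 * κ)) a.orc_add
          a.act.gate_add (fun v j y hy => a.args v j y hy) hR
      refine lt_of_le_of_lt (Nat.mul_le_mul_left _ ((Set.ncard_union_le _ _).trans
        (Nat.add_le_add (sums_card a.act) h1))) ?_
      rw [show 3 * (12 * κ) = 36 * κ by ring]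
      exact hN _ κ t m c _ _ R hκ0 hκ2 hκ1 ht1 ht0 hcon)
  obtain ⟨d, hd, hfool⟩ := foolT hE M hodd inp a hκ0 le_rfl ι σ α
    (fun q h1 h2 h3 => hα q h1 h2 (Or.inl h3)) (fun q h1 h2 h3 => hα q h1 h2 (Or.inr h3))
  have h1 := (hQ _ (partite_gr ι σ α 0)).2 (hasClique_zero ι σ α)
  rw [← hfool r 0] at h1
  have h3 := sum_of_hasClique ((hQ _ (partite_gr ι σ α (0 + d))).1 h1)
  rw [zero_add, hd] at h3
  exact one_ne_zero h3

/-- The results on many-one and Turing reductions. -/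
theorem final2 (hA : S_ALP) (hG : S_ALP → S_GUD2) (hT : S_TWO) (hE : S_EXT) (hZ : S_ZC)
    (hN : S_NUM3) (hR : S_GRO3) :
    ∃ c : ℕ, 0 < c ∧
    (∀ (β : Type) [Finite β] (m : ℕ) (D : Type u)
      (C : LCircuit.{0, u} ((β × (Fin m → F2)) × (β × (Fin m → F2))) D) [Finite C.Gate],
      C.OddFields → ∀ (inp : Bool → D)
      (act : C.Action fun v : β → (Fin m → F2) => pairPerm (trans v)) (O : Set C.Gate),
      (∀ v, ∀ g ∈ O, act.gate v g ∈ O) → ∀ Q : (O → D) → Prop,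
      (∀ x, Partite x → (Q (fun g => C.eval (inp ∘ x) g.1) ↔ HasClique x)) →
      c ≤ Nat.card β →
      2 ^ (m * Nat.card β) ≤ (2 ^ Nat.card β * C.size) ^ c ∨
        2 ^ (2 * m) ≤ 2 ^ (c * Nat.card β) * Nat.card O) ∧
    (∀ (β : Type) [Finite β] (m : ℕ) (D : Type u)
      (M : OracleCircuit ((β × (Fin m → F2)) × (β × (Fin m → F2))) D) [Finite M.C.Gate]
      [Finite M.J], M.C.OddFields → ∀ (inp : Bool → D)
      (_ : M.Action fun v : β → (Fin m → F2) => pairPerm (trans v)) (R : ℕ),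
      (∀ j, (M.args j).ncard ≤ R) → ∀ (r : ℕ) (acc : D → Prop),
      (∀ x, Partite x → (acc (M.output r (inp ∘ x)) ↔ HasClique x)) → c ≤ Nat.card β →
      2 ^ (m * Nat.card β) ≤
        (2 ^ Nat.card β * (R + 1) ^ Nat.card β * (M.C.size + Nat.card M.J)) ^ c) ∧
    ∀ c₀ d f g K : ℕ, c * (c₀ + 2) ≤ K → ∃ m₀ : ℕ, ∀ m, m₀ ≤ m → ∀ (D : Type u)
      (M : OracleCircuit ((Fin K × (Fin m → F2)) × (Fin K × (Fin m → F2))) D)
      [Finite M.C.Gate] [Finite M.J], M.C.OddFields → ∀ (inp : Bool → D)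
      (_ : M.Action fun v : Fin K → (Fin m → F2) => pairPerm (trans v)),
      M.C.size + Nat.card M.J ≤ f * 2 ^ (m * c₀) →
      (∀ j, (M.args j).ncard ≤ (g * (m + 1)) ^ d) → ∀ (r : ℕ) (acc : D → Prop),
      ¬ ∀ x, Partite x → (acc (M.output r (inp ∘ x)) ↔ HasClique x) := by
  obtain ⟨c, hc, h⟩ := main2.{u} hA hG hT
  obtain ⟨c', hc', h'⟩ := turing.{u} hA hG hE hZ hN
  refine ⟨c + c', by omega, ?_, ?_, ?_⟩
  · intro β _ m D C _ hodd inp act O hO Q hQ hK
    rcases h β m D C hodd inp act O hO Q hQ (by omega) with h1 | h1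
    · left
      refine h1.trans (Nat.pow_le_pow_right ?_ (by omega))
      have hs : 0 < C.size := Nat.add_pos_left (Nat.card_pos_iff.2 ⟨⟨C.out⟩, inferInstance⟩) _
      positivity
    · right
      refine h1.trans (Nat.mul_le_mul_right _ (Nat.pow_le_pow_right (by norm_num) ?_))
      exact Nat.mul_le_mul_right _ (by omega)
  · intro β _ m D M _ _ hodd inp a R hR r acc hQ hK
    refine (h' β m D M hodd inp a R hR r acc hQ (by omega)).trans
      (Nat.pow_le_pow_right ?_ (by omega))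
    have hs : 0 < M.C.size :=
      Nat.add_pos_left (Nat.card_pos_iff.2 ⟨⟨M.C.out⟩, inferInstance⟩) _
    have : 0 < M.C.size + Nat.card M.J := by omega
    positivity
  · intro c₀ d f g K hK
    have hK' : c' * (c₀ + 2) ≤ K := le_trans (Nat.mul_le_mul_right _ (by omega)) hK
    obtain ⟨m₀, hm⟩ := hR c' c₀ d f g K hc' hK'
    refine ⟨m₀, fun m hmm D M _ _ hodd inp a hs hRR r acc hQ => ?_⟩
    have h1 := hm m hmm _ _ hs le_rfl
    have hcard : Nat.card (Fin K) = K := by simp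
    have hcK : c' ≤ K := le_trans (Nat.le_mul_of_pos_right c' (Nat.succ_pos _)) hK'
    have h2 := h' (Fin K) m D M hodd inp a _ hRR r acc hQ (by rw [hcard]; exact hcK)
    rw [hcard] at h2
    exact absurd h1 (not_lt.2 h2)

end Pool.Agent.H5Red
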