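import Pool.Agent.H5Red.Stm
import Pool.Agent.H5Lin.CountL
import Pool.Agent.H5Sym.Nondet

/-!
# Equivariant reductions from the parameterised clique problem: the graphs, and fooling
-/

set_option autoImplicit false

namespace Pool.Agent.H5Red

open Module Equiv Pool.Agent.H5Sym Pool.Agent.H5Lin Pool.Agent.H5Thr

universe u

variable {P m : ℕ} {β : Type}

open Classical in
/-- the graph with the parameters `w` -/
noncomputable def gr (ι : Bool × Fin P ↪ β) (σ : Fin 3 → Perm (Fin P))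
    (α : Bool × Fin P → ((Fin m → F2) →ₗ[F2] K4)) (w : Fin 3 × Fin P → F2)
    (t : (β × (Fin m → F2)) × (β × (Fin m → F2))) : Bool :=
  decide (t.1.1 ≠ t.2.1 ∧ ∀ c i,
    (t.1.1 = ι (false, i) → t.2.1 = ι (true, σ c i) →
      ell c (α (false, i) t.1.2) + ell c (α (true, σ c i) t.2.2) = w (c, i)) ∧
    (t.2.1 = ι (false, i) → t.1.1 = ι (true, σ c i) →
      ell c (α (false, i) t.2.2) + ell c (α (true, σ c i) t.1.2) = w (c, i)))

theorem gr_true {ι : Bool × Fin P ↪ β} {σ : Fin 3 → Perm (Fin P)}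
    {α : Bool × Fin P → ((Fin m → F2) →ₗ[F2] K4)} {w : Fin 3 × Fin P → F2}
    {t : (β × (Fin m → F2)) × (β × (Fin m → F2))} : gr ι σ α w t = true ↔
    (t.1.1 ≠ t.2.1 ∧ ∀ c i,
    (t.1.1 = ι (false, i) → t.2.1 = ι (true, σ c i) →
      ell c (α (false, i) t.1.2) + ell c (α (true, σ c i) t.2.2) = w (c, i)) ∧
    (t.2.1 = ι (false, i) → t.1.1 = ι (true, σ c i) →
      ell c (α (false, i) t.2.2) + ell c (α (true, σ c i) t.1.2) = w (c, i))) := by
  simp only [gr, decide_eq_true_eq]

theorem partite_gr (ι : Bool × Fin P ↪ β) (σ : Fin 3 → Perm (Fin P))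
    (α : Bool × Fin P → ((Fin m → F2) →ₗ[F2] K4)) (w : Fin 3 × Fin P → F2) :
    Partite (gr ι σ α w) where
  symm p q := by
    rw [Bool.eq_iff_iff, gr_true, gr_true]
    constructor
    · rintro ⟨h, h'⟩
      exact ⟨h.symm, fun c i => ⟨(h' c i).2, (h' c i).1⟩⟩
    · rintro ⟨h, h'⟩
      exact ⟨h.symm, fun c i => ⟨(h' c i).2, (h' c i).1⟩⟩
  part b a a' := by
    rw [← Bool.not_eq_true, gr_true]
    rintro ⟨h, -⟩
    exact h rfl

theorem hasClique_zero (ι : Bool × Fin P ↪ β) (σ : Fin 3 → Perm (Fin P))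
    (α : Bool × Fin P → ((Fin m → F2) →ₗ[F2] K4)) : HasClique (gr ι σ α 0) := by
  refine ⟨0, fun b b' hb => gr_true.2 ⟨hb, fun c i => ⟨fun _ _ => ?_, fun _ _ => ?_⟩⟩⟩ <;>
  · simp only [Pi.zero_apply, map_zero, ell_zero, add_zero]

theorem sum_of_hasClique {ι : Bool × Fin P ↪ β} {σ : Fin 3 → Perm (Fin P)}
    {α : Bool × Fin P → ((Fin m → F2) →ₗ[F2] K4)} {w : Fin 3 × Fin P → F2}
    (h : HasClique (gr ι σ α w)) : ∑ e, w e = 0 := by
  obtain ⟨a, ha⟩ := h
  have h1 : Good (Function.Embedding.refl (Bool × Fin P)) σ w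
      (fun s => α s (a (ι s))) := by
    intro c i
    have h2 : ι (false, i) ≠ ι (true, σ c i) := fun h => by simpa using ι.injective h
    exact ((gr_true.1 (ha _ _ h2)).2 c i).1 rfl rfl
  exact h1.sum_zero

theorem trans_apply {F : Type} [AddCommGroup F] (v : β → F) (p : β × F) :
    trans v p = (p.1, p.2 + v p.1) := rfl

theorem A_apply (ι : Bool × Fin P ↪ β) (σ : Fin 3 → Perm (Fin P))
    (α : Bool × Fin P → ((Fin m → F2) →ₗ[F2] K4)) (v : β → (Fin m → F2)) (c : Fin 3)
    (i : Fin P) : (bdry (idn P) σ).comp (ctr ι α) v (c, i) =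
      ell c (α (false, i) (v (ι (false, i)))) + ell c (α (true, σ c i) (v (ι (true, σ c i)))) :=
  rfl

theorem gr_shift (ι : Bool × Fin P ↪ β) (σ : Fin 3 → Perm (Fin P))
    (α : Bool × Fin P → ((Fin m → F2) →ₗ[F2] K4)) (w : Fin 3 × Fin P → F2)
    (v : β → (Fin m → F2)) (t : (β × (Fin m → F2)) × (β × (Fin m → F2))) :
    gr ι σ α (w + (bdry (idn P) σ).comp (ctr ι α) v) (pairPerm (trans v) t) =
      gr ι σ α w t := by
  obtain ⟨⟨b, a⟩, b', a'⟩ := t
  rw [Bool.eq_iff_iff, gr_true, gr_true]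
  change (b ≠ b' ∧ ∀ c i, (b = ι (false, i) → b' = ι (true, σ c i) →
      ell c (α (false, i) (a + v b)) + ell c (α (true, σ c i) (a' + v b')) =
        w (c, i) + (bdry (idn P) σ).comp (ctr ι α) v (c, i)) ∧
    (b' = ι (false, i) → b = ι (true, σ c i) →
      ell c (α (false, i) (a' + v b')) + ell c (α (true, σ c i) (a + v b)) =
        w (c, i) + (bdry (idn P) σ).comp (ctr ι α) v (c, i))) ↔
    (b ≠ b' ∧ ∀ c i, (b = ι (false, i) → b' = ι (true, σ c i) →
      ell c (α (false, i) a) + ell c (α (true, σ c i) a') = w (c, i)) ∧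
    (b' = ι (false, i) → b = ι (true, σ c i) →
      ell c (α (false, i) a') + ell c (α (true, σ c i) a) = w (c, i)))
  have key : ∀ (c : Fin 3) (i : Fin P) (b b' : β) (a a' : Fin m → F2), b = ι (false, i) →
      b' = ι (true, σ c i) →
      (ell c (α (false, i) (a + v b)) + ell c (α (true, σ c i) (a' + v b')) =
        w (c, i) + (bdry (idn P) σ).comp (ctr ι α) v (c, i) ↔
      ell c (α (false, i) a) + ell c (α (true, σ c i) a') = w (c, i)) := by
    intro c i b b' a a' h1 h2
    subst h1 h2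
    rw [A_apply, map_add, map_add, ell_add, ell_add, add_add_add_comm, add_left_inj]
  refine and_congr_right fun _ => forall_congr' fun c => forall_congr' fun i =>
    and_congr ?_ ?_
  · exact forall_congr' fun h1 => forall_congr' fun h2 => key c i b b' a a' h1 h2
  · exact forall_congr' fun h1 => forall_congr' fun h2 => key c i b' b a' a h1 h2

theorem gr_base (ι : Bool × Fin P ↪ β) (σ : Fin 3 → Perm (Fin P))
    (α : Bool × Fin P → ((Fin m → F2) →ₗ[F2] K4))
    (t : (β × (Fin m → F2)) × (β × (Fin m → F2))) (w d : Fin 3 × Fin P → F2)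
    (hd : ∀ e, (∀ v, pairPerm (trans v) t = t → (bdry (idn P) σ).comp (ctr ι α) v e = 0) →
      d e = 0) : gr ι σ α (w + d) t = gr ι σ α w t := by
  obtain ⟨⟨b, a⟩, b', a'⟩ := t
  have key : ∀ c i, ((b = ι (false, i) ∧ b' = ι (true, σ c i)) ∨
      (b' = ι (false, i) ∧ b = ι (true, σ c i))) → d (c, i) = 0 := by
    intro c i h
    refine hd (c, i) fun v hv => ?_
    have h1 : v b = 0 := by
      have h2 : a + v b = a := congrArg (fun p => p.1.2) hv
      exact add_eq_left.1 h2
    have h1' : v b' = 0 := by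
      have h2 : a' + v b' = a' := congrArg (fun p => p.2.2) hv
      exact add_eq_left.1 h2
    rw [A_apply]
    rcases h with ⟨h2, h3⟩ | ⟨h2, h3⟩
    · rw [← h2, ← h3, h1, h1', map_zero, map_zero, ell_zero, add_zero]
    · rw [← h2, ← h3, h1, h1', map_zero, map_zero, ell_zero, add_zero]
  rw [Bool.eq_iff_iff, gr_true, gr_true]
  refine and_congr_right fun _ => forall_congr' fun c => forall_congr' fun i =>
    and_congr ?_ ?_
  · refine forall_congr' fun h1 => forall_congr' fun h2 => ?_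
    rw [Pi.add_apply, key c i (Or.inl ⟨h1, h2⟩), add_zero]
  · refine forall_congr' fun h1 => forall_congr' fun h2 => ?_
    rw [Pi.add_apply, key c i (Or.inr ⟨h1, h2⟩), add_zero]

/-- a set of gates that is mapped into itself by the action -/
def Closed {T : Type} {D : Type u} {C : LCircuit.{0, u} T D} {V : Type} [AddCommGroup V]
    {ρ : V → Perm T} (act : C.Action ρ) (O : Set C.Gate) : Prop :=
  ∀ v, ∀ g ∈ O, act.gate v g ∈ O

/-- the functionals that vanish on the stabiliser of an output -/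
def outF {T : Type} {D : Type u} {C : LCircuit.{0, u} T D} {V : Type} [AddCommGroup V]
    [Module F2 V] {ρ : V → Perm T} (act : C.Action ρ) (O : Set C.Gate) : Set (Dual F2 V) :=
  {ξ | ∃ g ∈ O, ∀ v, act.gate v g = g → ξ v = 0}

theorem act_zero {T : Type} {D : Type u} {C : LCircuit.{0, u} T D} {V : Type} [AddCommGroup V]
    {ρ : V → Perm T} (act : C.Action ρ) : act.gate 0 = 1 := by
  have h := act.gate_add 0 0
  rw [add_zero] at h
  exact left_eq_mul.1 h

theorem outF_card {T : Type} {D : Type u} {C : LCircuit.{0, u} T D} [Finite C.Gate] {V : Type}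
    [AddCommGroup V] [Module F2 V] [Finite V] {ρ : V → Perm T} (act : C.Action ρ)
    (O : Set C.Gate) (hO : Closed act O) : (outF act O).ncard ≤ Nat.card O := by
  let τ : V → Perm O := fun v =>
    { toFun := fun g => ⟨act.gate v g.1, hO v g.1 g.2⟩
      invFun := fun g => ⟨act.gate (-v) g.1, hO (-v) g.1 g.2⟩
      left_inv := fun g => Subtype.ext (by
        change act.gate (-v) (act.gate v g.1) = g.1
        rw [← Perm.mul_apply, ← act.gate_add, neg_add_cancel, act_zero]; rfl)
      right_inv := fun g => Subtype.ext (by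
        change act.gate v (act.gate (-v) g.1) = g.1
        rw [← Perm.mul_apply, ← act.gate_add, add_neg_cancel, act_zero]; rfl) }
  have hτ : ∀ u v, τ (u + v) = τ u * τ v := by
    intro u v
    ext g
    change act.gate (u + v) g.1 = act.gate u (act.gate v g.1)
    rw [act.gate_add]; rfl
  refine le_trans (le_of_eq ?_) (special_card τ hτ)
  congr 1
  ext ξ
  constructor
  · rintro ⟨g, hg, h⟩
    exact ⟨⟨g, hg⟩, fun v hv => h v (congrArg Subtype.val hv)⟩
  · rintro ⟨g, h⟩
    exact ⟨g.1, g.2, fun v hv => h v (Subtype.ext hv)⟩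

/-- the outputs do not see the parity of the sum of the parameters -/
theorem foolR [Finite β] {D : Type u}
    (C : LCircuit.{0, u} ((β × (Fin m → F2)) × (β × (Fin m → F2))) D) [Finite C.Gate]
    (hodd : C.OddFields) (inp : Bool → D)
    (act : C.Action fun v : β → (Fin m → F2) => pairPerm (trans v)) (O : Set C.Gate)
    {κ t : ℕ} (hκ : 0 < κ) (hP : 12 * κ ≤ P) (ht : 0 < t) (ι : Bool × Fin P ↪ β)
    (σ : Fin 3 → Perm (Fin P)) (α : Bool × Fin P → ((Fin m → F2) →ₗ[F2] K4))
    (hσ : ∀ q : Dual F2 (Fin 3 × Fin P → F2), 3 * κ ≤ wt q → wt q < 6 * κ →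
      t ≤ csup (q.comp (bdry (idn P) σ)))
    (hα : ∀ q : Dual F2 (Fin 3 × Fin P → F2), 3 * κ ≤ wt q → wt q < 6 * κ →
      q.comp ((bdry (idn P) σ).comp (ctr ι α)) ∉
        {ζ : Dual F2 (β → (Fin m → F2)) | ∃ ξ ∈ act.special, ∃ η ∈ act.special, ζ = ξ + η})
    (hα' : ∀ q : Dual F2 (Fin 3 × Fin P → F2),
      q.comp ((bdry (idn P) σ).comp (ctr ι α)) ∈ outF act O → q.comp (bdry (idn P) σ) = 0) :
    ∃ d : Fin 3 × Fin P → F2, ∑ e, d e = 1 ∧ ∀ w, ∀ g ∈ O,
      C.eval (inp ∘ gr ι σ α (w + d)) g = C.eval (inp ∘ gr ι σ α w) g := by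
  classical
  let q₀ : Dual F2 (Fin 3 × Fin P → F2) := ∑ e, LinearMap.proj e
  have hq₀ : ∀ d, q₀ d = ∑ e, d e := fun d => by simp [q₀]
  let small : Set (Dual F2 (Fin 3 × Fin P → F2)) := {q | wt q < 6 * κ}
  let small' : Set (Dual F2 (Fin 3 × Fin P → F2)) := {q | wt q < 3 * κ}
  have h0 : (0 : Dual F2 (Fin 3 × Fin P → F2)) ∈ small' := by
    change wt 0 < 3 * κ
    rw [wt_zero]; omega
  have hadd : ∀ q ∈ small', ∀ q' ∈ small', q + q' ∈ small := by
    intro q hq q' hq'
    have h1 := wt_add q q'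
    have h2 : wt q < 3 * κ := hq
    have h3 : wt q' < 3 * κ := hq'
    change wt (q + q') < 6 * κ
    omega
  have hgap : ∀ q ∈ small, (∃ ξ ∈ act.special, ∃ η ∈ act.special,
      ∀ v, q ((bdry (idn P) σ).comp (ctr ι α) v) = ξ v + η v) → q ∈ small' := by
    rintro q hq ⟨ξ, hξ, η, hη, h⟩
    have h2 : wt q < 6 * κ := hq
    by_contra h3
    exact hα q (not_lt.1 h3) h2 ⟨ξ, hξ, η, hη, LinearMap.ext h⟩
  have hker : ∀ q : Dual F2 (Fin 3 × Fin P → F2), wt q < 6 * κ →
      q.comp (bdry (idn P) σ) = 0 → wt q < 3 * κ := by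
    intro q hq hq'
    by_contra h3
    have h4 := hσ q (not_lt.1 h3) hq
    have h5 : csup (q.comp (bdry (idn P) σ)) = 0 := by
      rw [hq']
      unfold csup
      rw [Nat.card_eq_zero]
      left
      constructor
      rintro ⟨b, a, h⟩
      exact h rfl
    omega
  let L : Submodule F2 (Dual F2 (Fin 3 × Fin P → F2)) :=
    { carrier := {q | wt q < 6 * κ ∧ q.comp (bdry (idn P) σ) = 0}
      zero_mem' := ⟨by rw [wt_zero]; omega, LinearMap.zero_comp _⟩
      add_mem' := fun {q q'} hq hq' => ⟨by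
          have h1 := wt_add q q'
          have h2 := hker q hq.1 hq.2
          have h3 := hker q' hq'.1 hq'.2
          omega, by rw [LinearMap.add_comp, hq.2, hq'.2, add_zero]⟩
      smul_mem' := fun c q hq => by
        rcases F2.cases c with rfl | rfl
        · rw [zero_smul]
          exact ⟨by rw [wt_zero]; omega, LinearMap.zero_comp _⟩
        · rwa [one_smul] }
  have hq : q₀ ∉ L := by
    intro h
    have h1 : wt q₀ < 6 * κ := h.1
    have h2 : wt q₀ = 3 * P := by
      rw [wt, Finset.filter_true_of_mem]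
      · simp
      · intro e _
        rw [hq₀, Finset.sum_pi_single']
        simp
    omega
  rw [← Subspace.dualCoannihilator_dualAnnihilator_eq (W := L), Submodule.mem_dualAnnihilator] at hq
  push Not at hq
  obtain ⟨d, hd, hd'⟩ := hq
  rw [Submodule.mem_dualCoannihilator] at hd
  refine ⟨d, by rw [← hq₀]; exact (F2.cases _).resolve_left hd', fun w g hg => ?_⟩
  refine act.core hodd ((bdry (idn P) σ).comp (ctr ι α)) (fun w => inp ∘ gr ι σ α w)
    (fun w v t => congrArg inp (gr_shift ι σ α w v t)) small small' h0 hadd ?_ hgap g d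
    (fun q hq => hd q ⟨hq.1, hα' q ⟨g, hg, hq.2⟩⟩) w
  intro t w d hd
  refine congrArg inp (gr_base ι σ α t w d fun e he => ?_)
  refine hd (LinearMap.proj e) ?_ fun v hv => he v hv
  change wt _ < 6 * κ
  have h1 : wt (LinearMap.proj e : Dual F2 (Fin 3 × Fin P → F2)) ≤ 1 := by
    rw [wt, Finset.card_le_one]
    intro a ha b hb
    simp only [Finset.mem_filter, Finset.mem_univ, true_and, LinearMap.proj_apply,
      Pi.single_apply] at ha hb
    by_contra hab
    rcases eq_or_ne e a with h2 | h2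
    · rcases eq_or_ne e b with h3 | h3
      · exact hab (h2.symm.trans h3)
      · exact hb (if_neg h3)
    · exact ha (if_neg h2)
  omega

end Pool.Agent.H5Red
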