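import Pool.Agent.H5Red.Stm2

/-!
# GRO2: growth of the two sides, sharp form
-/

set_option autoImplicit false

namespace Pool.Agent.H5Red

theorem t_GRO2 : S_GRO2 := by
  intro c c₀ e f K hc he hK
  refine ⟨max (c * K * e + f + 1) (K + f + 1), fun m hm s o hs ho => ⟨?_, ?_⟩⟩
  · have hm2 : K + f + 1 ≤ m := le_trans (le_max_right _ _) hm
    have hf : f ≤ 2 ^ f := Nat.lt_two_pow_self.le
    have h1 : 2 ^ K * s ≤ 2 ^ (K + f + m * c₀) := by
      calc 2 ^ K * s ≤ 2 ^ K * (2 ^ f * 2 ^ (m * c₀)) :=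
            Nat.mul_le_mul_left _ (le_trans hs (Nat.mul_le_mul_right _ hf))
        _ = 2 ^ (K + f + m * c₀) := by rw [pow_add, pow_add]; ring
    calc (2 ^ K * s) ^ c ≤ (2 ^ (K + f + m * c₀)) ^ c := Nat.pow_le_pow_left h1 _
      _ = 2 ^ ((K + f + m * c₀) * c) := by rw [← pow_mul]
      _ < 2 ^ (m * K) := by
        apply Nat.pow_lt_pow_right (by norm_num)
        calc (K + f + m * c₀) * c < (m + m * c₀) * c := by
              apply Nat.mul_lt_mul_of_pos_right _ hc
              omega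
          _ = m * (c * (c₀ + 1)) := by ring
          _ ≤ m * K := Nat.mul_le_mul_left _ hK
  · have hm1 : c * K * e + f + 1 ≤ m := le_trans (le_max_left _ _) hm
    have hf : f ≤ 2 ^ f := Nat.lt_two_pow_self.le
    refine lt_of_pow_lt_pow_left₀ e (Nat.zero_le _) ?_
    calc (2 ^ (c * K) * o) ^ e = 2 ^ (c * K * e) * o ^ e := by rw [mul_pow, ← pow_mul]
      _ ≤ 2 ^ (c * K * e) * (2 ^ f * 2 ^ (m * (2 * e - 1))) :=
          Nat.mul_le_mul_left _ (le_trans ho (Nat.mul_le_mul_right _ hf))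
      _ = 2 ^ (c * K * e + f + m * (2 * e - 1)) := by rw [pow_add, pow_add]; ring
      _ < 2 ^ (2 * m * e) := by
        apply Nat.pow_lt_pow_right (by norm_num)
        obtain ⟨e', rfl⟩ : ∃ e', e = e' + 1 := ⟨e - 1, by omega⟩
        have h2 : 2 * (e' + 1) - 1 = 2 * e' + 1 := by omega
        rw [h2]
        have h3 : 2 * m * (e' + 1) = m * (2 * e' + 1) + m := by ring
        omega
      _ = (2 ^ (2 * m)) ^ e := by rw [← pow_mul]

end Pool.Agent.H5Red
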