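import Pool.Agent.H5Red.Stm3
import Pool.Agent.H5Red.Gro

/-!
# GRO3: growth of the two sides, with polynomially many arguments
-/

set_option autoImplicit false

namespace Pool.Agent.H5Red

theorem t_GRO3 : S_GRO3 := by
  intro c c₀ d f g K hc hK
  obtain ⟨m₀, hm₀⟩ := GRO.expo (2 ^ K * 2 ^ f * (2 ^ K * (g + 1) ^ (d * K))) (d * K)
  refine ⟨m₀, fun m hm s R hs hR => ?_⟩
  have h0 := hm₀ m hm
  have hf : f ≤ 2 ^ f := Nat.lt_two_pow_self.le
  have hR1 : R + 1 ≤ 2 * ((g + 1) * (m + 1)) ^ d := by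
    have h1 : (g * (m + 1)) ^ d ≤ ((g + 1) * (m + 1)) ^ d :=
      Nat.pow_le_pow_left (Nat.mul_le_mul_right _ (Nat.le_succ g)) d
    have h2 : 0 < ((g + 1) * (m + 1)) ^ d := by positivity
    omega
  have h3 : 2 ^ K * (R + 1) ^ K * s < 2 ^ (m * (c₀ + 1)) := by
    calc 2 ^ K * (R + 1) ^ K * s
        ≤ 2 ^ K * (2 * ((g + 1) * (m + 1)) ^ d) ^ K * (2 ^ f * 2 ^ (m * c₀)) :=
          Nat.mul_le_mul (Nat.mul_le_mul_left _ (Nat.pow_le_pow_left hR1 K))
            (le_trans hs (Nat.mul_le_mul_right _ hf))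
      _ = (2 ^ K * 2 ^ f * (2 ^ K * (g + 1) ^ (d * K)) * (m + 1) ^ (d * K)) * 2 ^ (m * c₀) := by
          rw [mul_pow, mul_pow, mul_pow, ← pow_mul, ← pow_mul]
          ring
      _ < 2 ^ m * 2 ^ (m * c₀) := Nat.mul_lt_mul_of_pos_right h0 (by positivity)
      _ = 2 ^ (m * (c₀ + 1)) := by rw [← pow_add]; ring
  calc (2 ^ K * (R + 1) ^ K * s) ^ c < (2 ^ (m * (c₀ + 1))) ^ c := Nat.pow_lt_pow_left h3 hc.ne'
    _ = 2 ^ (m * (c₀ + 1) * c) := by rw [← pow_mul]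
    _ ≤ 2 ^ (m * K) := by
        apply Nat.pow_le_pow_right (by norm_num)
        calc m * (c₀ + 1) * c ≤ m * (c * (c₀ + 2)) := by
              have : m * (c * (c₀ + 2)) = m * (c₀ + 1) * c + m * c := by ring
              omega
          _ ≤ m * K := Nat.mul_le_mul_left _ hK

end Pool.Agent.H5Red
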