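import Pool.Agent.H5Red.Stm

/-!
# GUD: the union bound for the random contraction
-/

set_option autoImplicit false

namespace Pool.Agent.H5Red

open Module Equiv Pool.Agent.H5Sym Pool.Agent.H5Lin Pool.Agent.H5Thr

namespace GUD

theorem card_q (P : ℕ) : Nat.card (Dual F2 (Fin 3 × Fin P → F2)) = 2 ^ (3 * P) := by
  have h := Module.natCard_eq_pow_finrank (K := F2) (V := Dual F2 (Fin 3 × Fin P → F2))
  rw [h, Subspace.dual_finrank_eq, Module.finrank_fintype_fun_eq_card]
  simp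

theorem csup_pos {P : ℕ} (ζ : Dual F2 (Bool × Fin P → K4)) (h : ζ ≠ 0) : 1 ≤ csup ζ := by
  by_contra hc
  apply h
  have h0 : csup ζ = 0 := by omega
  unfold csup at h0
  rw [Finite.card_eq_zero_iff] at h0
  let _ : DecidableEq (Bool × Fin P) := Classical.decEq _
  refine LinearMap.pi_ext fun b a => ?_
  by_contra hne
  exact h0.false ⟨b, a, hne⟩

instance finHom (m : ℕ) : Finite ((Fin m → F2) →ₗ[F2] K4) := DFunLike.finite _

instance finDual {β : Type} [Finite β] (m : ℕ) : Finite (Dual F2 (β → (Fin m → F2))) := DFunLike.finite _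

instance finDual' (P : ℕ) : Finite (Dual F2 (Fin 3 × Fin P → F2)) := DFunLike.finite _

end GUD

open GUD in
theorem t_GUD (h : S_ALP) : S_GUD := by
  intro P m κ t β _ ι σ ht hexp Φ Ψ hlt
  classical
  have : Fintype (Bool × Fin P → ((Fin m → F2) →ₗ[F2] K4)) := Fintype.ofFinite _
  have : Fintype (Dual F2 (β → (Fin m → F2))) := Fintype.ofFinite _
  have : Fintype (Dual F2 (Fin 3 × Fin P → F2)) := Fintype.ofFinite _
  by_contra hno
  let S : Dual F2 (Fin 3 × Fin P → F2) → Dual F2 (β → (Fin m → F2)) →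
      Finset (Bool × Fin P → ((Fin m → F2) →ₗ[F2] K4)) := fun q φ =>
    Finset.univ.filter fun α => (q.comp (bdry (idn P) σ)).comp (ctr ι α) = φ
  have hN : 0 < Fintype.card (Bool × Fin P → ((Fin m → F2) →ₗ[F2] K4)) := Fintype.card_pos
  have hS : ∀ q φ, (S q φ).card * 2 ^ (m * csup (q.comp (bdry (idn P) σ))) ≤
      Fintype.card (Bool × Fin P → ((Fin m → F2) →ₗ[F2] K4)) := by
    intro q φ
    have := h P m β ι (q.comp (bdry (idn P) σ)) φ
    rw [Nat.card_eq_fintype_card, Nat.card_eq_fintype_card, Fintype.card_subtype] at this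
    exact this
  have hS1 : ∀ q φ, 3 * κ ≤ wt q ∧ wt q < 6 * κ → (S q φ).card * 2 ^ (m * t) ≤
      Fintype.card (Bool × Fin P → ((Fin m → F2) →ₗ[F2] K4)) := by
    intro q φ hq
    refine le_trans (Nat.mul_le_mul_left _ ?_) (hS q φ)
    exact Nat.pow_le_pow_right (by norm_num) (Nat.mul_le_mul_left _ (hexp q hq.1 hq.2))
  have hS2 : ∀ q φ, q.comp (bdry (idn P) σ) ≠ 0 → (S q φ).card * 2 ^ (m * t) ≤
      Fintype.card (Bool × Fin P → ((Fin m → F2) →ₗ[F2] K4)) * 2 ^ (m * (t - 1)) := by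
    intro q φ hq
    have h1 : 2 ^ (m * t) = 2 ^ m * 2 ^ (m * (t - 1)) := by
      rw [← pow_add]
      congr 1
      obtain ⟨s, rfl⟩ : ∃ s, t = s + 1 := ⟨t - 1, by omega⟩
      simp only [Nat.add_sub_cancel]
      ring
    rw [h1, ← mul_assoc]
    refine Nat.mul_le_mul_right _ (le_trans (Nat.mul_le_mul_left _ ?_) (hS q φ))
    refine Nat.pow_le_pow_right (by norm_num) ?_
    calc m = m * 1 := (mul_one m).symm
      _ ≤ _ := Nat.mul_le_mul_left _ (csup_pos _ hq)
  let T1 : Dual F2 (Fin 3 × Fin P → F2) → Finset (Bool × Fin P → ((Fin m → F2) →ₗ[F2] K4)) := fun q =>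
    Φ.toFinset.biUnion fun φ => if 3 * κ ≤ wt q ∧ wt q < 6 * κ then S q φ else ∅
  let T2 : Dual F2 (Fin 3 × Fin P → F2) → Finset (Bool × Fin P → ((Fin m → F2) →ₗ[F2] K4)) := fun q =>
    Ψ.toFinset.biUnion fun φ => if q.comp (bdry (idn P) σ) ≠ 0 then S q φ else ∅
  have hcov : (Finset.univ : Finset (Bool × Fin P → ((Fin m → F2) →ₗ[F2] K4))) ⊆
      Finset.univ.biUnion fun q => T1 q ∪ T2 q := by
    intro α _
    by_contra hα
    apply hno
    refine ⟨α, ?_, ?_⟩
    · intro q hq1 hq2 hmem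
      apply hα
      refine Finset.mem_biUnion.2 ⟨q, Finset.mem_univ _, Finset.mem_union_left _ ?_⟩
      refine Finset.mem_biUnion.2 ⟨_, Set.mem_toFinset.2 hmem, ?_⟩
      rw [if_pos ⟨hq1, hq2⟩]
      exact Finset.mem_filter.2 ⟨Finset.mem_univ _, rfl⟩
    · intro q hmem
      by_contra hne
      apply hα
      refine Finset.mem_biUnion.2 ⟨q, Finset.mem_univ _, Finset.mem_union_right _ ?_⟩
      refine Finset.mem_biUnion.2 ⟨_, Set.mem_toFinset.2 hmem, ?_⟩
      rw [if_pos hne]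
      exact Finset.mem_filter.2 ⟨Finset.mem_univ _, rfl⟩
  have hT1 : ∀ q, (T1 q).card * 2 ^ (m * t) ≤
      Φ.ncard * Fintype.card (Bool × Fin P → ((Fin m → F2) →ₗ[F2] K4)) := by
    intro q
    calc (T1 q).card * 2 ^ (m * t) ≤ (∑ φ ∈ Φ.toFinset, (if 3 * κ ≤ wt q ∧ wt q < 6 * κ then S q φ
          else ∅).card) * 2 ^ (m * t) := Nat.mul_le_mul_right _ Finset.card_biUnion_le
      _ = ∑ φ ∈ Φ.toFinset, (if 3 * κ ≤ wt q ∧ wt q < 6 * κ then S q φ
          else ∅).card * 2 ^ (m * t) := Finset.sum_mul _ _ _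
      _ ≤ ∑ φ ∈ Φ.toFinset, Fintype.card (Bool × Fin P → ((Fin m → F2) →ₗ[F2] K4)) := by
          refine Finset.sum_le_sum fun φ _ => ?_
          by_cases hq : 3 * κ ≤ wt q ∧ wt q < 6 * κ
          · rw [if_pos hq]
            exact hS1 q φ hq
          · rw [if_neg hq]
            simp
      _ = _ := by rw [Finset.sum_const, smul_eq_mul, Set.ncard_eq_toFinset_card']
  have hT2 : ∀ q, (T2 q).card * 2 ^ (m * t) ≤
      Ψ.ncard * (Fintype.card (Bool × Fin P → ((Fin m → F2) →ₗ[F2] K4)) * 2 ^ (m * (t - 1))) := by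
    intro q
    calc (T2 q).card * 2 ^ (m * t) ≤ (∑ φ ∈ Ψ.toFinset, (if q.comp (bdry (idn P) σ) ≠ 0 then S q φ
          else ∅).card) * 2 ^ (m * t) := Nat.mul_le_mul_right _ Finset.card_biUnion_le
      _ = ∑ φ ∈ Ψ.toFinset, (if q.comp (bdry (idn P) σ) ≠ 0 then S q φ
          else ∅).card * 2 ^ (m * t) := Finset.sum_mul _ _ _
      _ ≤ ∑ φ ∈ Ψ.toFinset, (Fintype.card (Bool × Fin P → ((Fin m → F2) →ₗ[F2] K4)) *
            2 ^ (m * (t - 1))) := by
          refine Finset.sum_le_sum fun φ _ => ?_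
          by_cases hq : q.comp (bdry (idn P) σ) ≠ 0
          · rw [if_pos hq]
            exact hS2 q φ hq
          · rw [if_neg hq]
            simp
      _ = _ := by rw [Finset.sum_const, smul_eq_mul, Set.ncard_eq_toFinset_card']
  have htot : Fintype.card (Bool × Fin P → ((Fin m → F2) →ₗ[F2] K4)) * 2 ^ (m * t) ≤
      2 ^ (3 * P) * (Φ.ncard + Ψ.ncard * 2 ^ (m * (t - 1))) *
        Fintype.card (Bool × Fin P → ((Fin m → F2) →ₗ[F2] K4)) := by
    calc Fintype.card (Bool × Fin P → ((Fin m → F2) →ₗ[F2] K4)) * 2 ^ (m * t)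
        ≤ (∑ q : Dual F2 (Fin 3 × Fin P → F2), (T1 q ∪ T2 q).card) * 2 ^ (m * t) := by
          refine Nat.mul_le_mul_right _ ?_
          rw [← Finset.card_univ]
          exact (Finset.card_le_card hcov).trans Finset.card_biUnion_le
      _ = ∑ q : Dual F2 (Fin 3 × Fin P → F2), (T1 q ∪ T2 q).card * 2 ^ (m * t) :=
          Finset.sum_mul _ _ _
      _ ≤ ∑ _q : Dual F2 (Fin 3 × Fin P → F2),
            (Φ.ncard * Fintype.card (Bool × Fin P → ((Fin m → F2) →ₗ[F2] K4)) +
            Ψ.ncard * (Fintype.card (Bool × Fin P → ((Fin m → F2) →ₗ[F2] K4)) *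
              2 ^ (m * (t - 1)))) := by
          refine Finset.sum_le_sum fun q _ => ?_
          refine (Nat.mul_le_mul_right _ (Finset.card_union_le _ _)).trans ?_
          rw [add_mul]
          exact Nat.add_le_add (hT1 q) (hT2 q)
      _ = _ := by
          rw [Finset.sum_const, smul_eq_mul, Finset.card_univ, ← Nat.card_eq_fintype_card
            (α := Dual F2 (Fin 3 × Fin P → F2)), card_q]
          ring
  have hfin := Nat.mul_lt_mul_of_pos_right hlt hN
  rw [mul_comm (2 ^ (m * t))] at hfin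
  exact absurd htot (not_le.2 hfin)

end Pool.Agent.H5Red

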