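import Pool.Agent.H5Red.Gr
import Pool.Agent.H5Thr.Exp

/-!
# Equivariant reductions from the parameterised clique problem: assembly
-/

set_option autoImplicit false

namespace Pool.Agent.H5Red

open Module Equiv Pool.Agent.H5Sym Pool.Agent.H5Lin Pool.Agent.H5Thr

universe u

theorem red_num {K κ t m c s o : ℕ} (hκ : 0 < κ) (hK : K < 24 * κ + 24) (hK' : 24 * κ ≤ K)
    (ht : κ ≤ c * t) (ht0 : 0 < t) (h1 : (2 ^ K * s) ^ (96 * c) < 2 ^ (m * K))
    (h2 : 2 ^ (96 * c * K) * o < 2 ^ m) :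
    2 ^ (36 * κ) * (s ^ 2 + o * 2 ^ (m * (t - 1))) < 2 ^ (m * t) := by
  have hc : 0 < c := Nat.pos_of_ne_zero (by rintro rfl; simp at ht; omega)
  have h3 : (2 ^ K * s) ^ 2 < 2 ^ (m * t) := by
    have h4 : ((2 ^ K * s) ^ 2) ^ (48 * c) < (2 ^ (m * t)) ^ (48 * c) := by
      calc ((2 ^ K * s) ^ 2) ^ (48 * c) = (2 ^ K * s) ^ (96 * c) := by
            rw [← pow_mul]; congr 1; ring
        _ < 2 ^ (m * K) := h1
        _ ≤ 2 ^ (m * (48 * (c * t))) :=
            Nat.pow_le_pow_right (by norm_num) (Nat.mul_le_mul_left _ (by omega))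
        _ = (2 ^ (m * t)) ^ (48 * c) := by rw [← pow_mul]; congr 1; ring
    exact lt_of_pow_lt_pow_left₀ _ (Nat.zero_le _) h4
  have h5 : 2 * (2 ^ (36 * κ) * s ^ 2) ≤ (2 ^ K * s) ^ 2 := by
    calc 2 * (2 ^ (36 * κ) * s ^ 2) = 2 ^ (36 * κ + 1) * s ^ 2 := by rw [pow_succ]; ring
      _ ≤ 2 ^ (2 * K) * s ^ 2 :=
          Nat.mul_le_mul_right _ (Nat.pow_le_pow_right (by norm_num) (by omega))
      _ = (2 ^ K * s) ^ 2 := by rw [mul_pow, ← pow_mul, mul_comm K 2]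
  have h6 : 2 * (2 ^ (36 * κ) * (o * 2 ^ (m * (t - 1)))) < 2 ^ (m * t) := by
    have hcK : K ≤ 96 * c * K := Nat.le_mul_of_pos_left _ (by positivity)
    have hcK' : 36 * κ + 1 ≤ 96 * c * K := by
      have h7 : 96 * K ≤ 96 * c * K := by
        rw [mul_assoc]
        exact Nat.mul_le_mul_left _ (Nat.le_mul_of_pos_left _ hc)
      omega
    calc 2 * (2 ^ (36 * κ) * (o * 2 ^ (m * (t - 1)))) =
          2 ^ (36 * κ + 1) * o * 2 ^ (m * (t - 1)) := by rw [pow_succ]; ring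
      _ ≤ 2 ^ (96 * c * K) * o * 2 ^ (m * (t - 1)) :=
          Nat.mul_le_mul_right _ (Nat.mul_le_mul_right _
            (Nat.pow_le_pow_right (by norm_num) hcK'))
      _ < 2 ^ m * 2 ^ (m * (t - 1)) := Nat.mul_lt_mul_of_pos_right h2 (by positivity)
      _ = 2 ^ (m * t) := by
          rw [← pow_add]
          congr 1
          obtain ⟨u, rfl⟩ : ∃ u, t = u + 1 := ⟨t - 1, by omega⟩
          rw [Nat.add_sub_cancel]
          ring
  rw [mul_add]
  omega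

theorem main (hA : S_ALP) (hG : S_ALP → S_GUD) :
    ∃ c : ℕ, 0 < c ∧ ∀ (β : Type) [Finite β] (m : ℕ) (D : Type u)
      (C : LCircuit.{0, u} ((β × (Fin m → F2)) × (β × (Fin m → F2))) D) [Finite C.Gate],
      C.OddFields → ∀ (inp : Bool → D)
      (act : C.Action fun v : β → (Fin m → F2) => pairPerm (trans v)) (O : Set C.Gate),
      (∀ v, ∀ g ∈ O, act.gate v g ∈ O) → ∀ Q : (O → D) → Prop,
      (∀ x, Partite x → (Q (fun g => C.eval (inp ∘ x) g.1) ↔ HasClique x)) →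
      c ≤ Nat.card β →
      2 ^ (m * Nat.card β) ≤ (2 ^ Nat.card β * C.size) ^ c ∨
        2 ^ m ≤ 2 ^ (c * Nat.card β) * Nat.card O := by
  classical
  obtain ⟨c, hc, h⟩ := t_EXP
  refine ⟨96 * c, by positivity, ?_⟩
  intro β _ m D C _ hodd inp act O hO Q hQ hK
  have : Fintype β := Fintype.ofFinite β
  by_contra hcon
  push Not at hcon
  obtain ⟨hcon1, hcon2⟩ := hcon
  obtain ⟨κ, hκ1, hκ2⟩ : ∃ κ, 24 * κ ≤ Nat.card β ∧ Nat.card β < 24 * κ + 24 :=
    ⟨Nat.card β / 24, by omega, by omega⟩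
  have hκc : c ≤ κ := by omega
  have hκ0 : 0 < κ := by omega
  obtain ⟨σ, hσ⟩ := h κ hκc
  obtain ⟨t, ht1, ht2⟩ : ∃ t, κ ≤ c * t ∧ c * t < κ + c := by
    refine ⟨(κ + c - 1) / c, ?_, ?_⟩
    · have := Nat.div_add_mod (κ + c - 1) c
      have := Nat.mod_lt (κ + c - 1) hc
      omega
    · have := Nat.mul_div_le (κ + c - 1) c
      omega
  have ht0 : 0 < t := Nat.pos_of_ne_zero (by rintro rfl; simp at ht1; omega)
  have hσ' : ∀ q : Dual F2 (Fin 3 × Fin (12 * κ) → F2), 3 * κ ≤ wt q → wt q < 6 * κ →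
      t ≤ csup (q.comp (bdry (idn (12 * κ)) σ)) := by
    intro q h1 h2
    have h3 := hσ q h1 h2
    by_contra h4
    push Not at h4
    have h5 : c * (csup (q.comp (bdry (idn (12 * κ)) σ)) + 1) ≤ c * t := Nat.mul_le_mul_left c h4
    have h6 : c * (csup (q.comp (bdry (idn (12 * κ)) σ)) + 1) =
      c * csup (q.comp (bdry (idn (12 * κ)) σ)) + c := by ring
    omega
  obtain ⟨ι⟩ : Nonempty (Bool × Fin (12 * κ) ↪ β) := by
    refine Function.Embedding.nonempty_of_card_le ?_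
    rw [Fintype.card_prod, Fintype.card_bool, Fintype.card_fin, ← Nat.card_eq_fintype_card]
    omega
  obtain ⟨α, hα, hα'⟩ := hG hA (12 * κ) m κ t β ι σ ht0 hσ'
    {ζ : Dual F2 (β → (Fin m → F2)) | ∃ ξ ∈ act.special, ∃ η ∈ act.special, ζ = ξ + η}
    (outF act O) (by
      refine lt_of_le_of_lt (Nat.mul_le_mul_left _ (Nat.add_le_add (sums_card act)
        (Nat.mul_le_mul_right _ (outF_card act O hO)))) ?_
      rw [show 3 * (12 * κ) = 36 * κ by ring]
      exact red_num hκ0 hκ2 hκ1 ht1 ht0 hcon1 hcon2)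
  obtain ⟨d, hd, hfool⟩ := foolR C hodd inp act O hκ0 le_rfl ht0 ι σ α hσ' hα hα'
  have h1 := (hQ _ (partite_gr ι σ α 0)).2 (hasClique_zero ι σ α)
  have h2 : (fun g : O => C.eval (inp ∘ gr ι σ α 0) g.1) =
      fun g : O => C.eval (inp ∘ gr ι σ α (0 + d)) g.1 := by
    funext g
    exact (hfool 0 g.1 g.2).symm
  rw [h2] at h1
  have h3 := sum_of_hasClique ((hQ _ (partite_gr ι σ α (0 + d))).1 h1)
  rw [zero_add, hd] at h3
  exact one_ne_zero h3

end Pool.Agent.H5Red
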