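import Pool.Agent.H5Red.Tur
import Pool.Agent.H5Red.Main2

/-!
# Equivariant Turing reductions: assembly
-/

set_option autoImplicit false

namespace Pool.Agent.H5Red

open Module Equiv Pool.Agent.H5Sym Pool.Agent.H5Lin Pool.Agent.H5Thr

universe u

/-- the functionals which are sums of functionals seen by the gates that an oracle gate reads -/
def thetaF {T : Type} {D : Type u} {M : OracleCircuit T D} {V : Type} [AddCommGroup V]
    [Module F2 V] {ρ : V → Perm T} (a : M.Action ρ) (n : ℕ) : Set (Dual F2 V) :=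
  {ξ : Dual F2 V | ∃ j, ∃ f : Fin n → Dual F2 V,
    (∀ i, f i = 0 ∨ ∃ y ∈ M.args j, ∀ v, a.act.gate v y = y → f i v = 0) ∧ ξ = ∑ i, f i}

/-- the output of a circuit with oracle gates does not see the parity of the sum of the parameters -/
theorem foolT (hE : S_EXT) {P m : ℕ} {β : Type} [Finite β] {D : Type u}
    (M : OracleCircuit ((β × (Fin m → F2)) × (β × (Fin m → F2))) D) [Finite M.C.Gate]
    (hodd : M.C.OddFields) (inp : Bool → D)
    (a : M.Action fun v : β → (Fin m → F2) => pairPerm (trans v))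
    {κ : ℕ} (hκ : 0 < κ) (hP : 12 * κ ≤ P) (ι : Bool × Fin P ↪ β)
    (σ : Fin 3 → Perm (Fin P)) (α : Bool × Fin P → ((Fin m → F2) →ₗ[F2] K4))
    (hα : ∀ q : Dual F2 (Fin 3 × Fin P → F2), 3 * κ ≤ wt q → wt q < 6 * κ →
      q.comp ((bdry (idn P) σ).comp (ctr ι α)) ∉
        {ζ : Dual F2 (β → (Fin m → F2)) | ∃ ξ ∈ a.act.special, ∃ η ∈ a.act.special, ζ = ξ + η})
    (hα' : ∀ q : Dual F2 (Fin 3 × Fin P → F2), 3 * κ ≤ wt q → wt q < 6 * κ →
      q.comp ((bdry (idn P) σ).comp (ctr ι α)) ∉ thetaF a (3 * P)) :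
    ∃ d : Fin 3 × Fin P → F2, ∑ e, d e = 1 ∧ ∀ r w,
      M.output r (inp ∘ gr ι σ α (w + d)) = M.output r (inp ∘ gr ι σ α w) := by
  classical
  let A : (β → (Fin m → F2)) →ₗ[F2] (Fin 3 × Fin P → F2) := (bdry (idn P) σ).comp (ctr ι α)
  let q₀ : Dual F2 (Fin 3 × Fin P → F2) := ∑ e, LinearMap.proj e
  have hq₀ : ∀ d, q₀ d = ∑ e, d e := fun d => by simp [q₀]
  let small : Set (Dual F2 (Fin 3 × Fin P → F2)) := {q | wt q < 6 * κ}
  let small' : Set (Dual F2 (Fin 3 × Fin P → F2)) := {q | wt q < 3 * κ}
  have h0 : (0 : Dual F2 (Fin 3 × Fin P → F2)) ∈ small' := by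
    change wt 0 < 3 * κ
    rw [wt_zero]; omega
  have hadd : ∀ q ∈ small', ∀ q' ∈ small', q + q' ∈ small := by
    intro q hq q' hq'
    have h1 := wt_add q q'
    have h2 : wt q < 3 * κ := hq
    have h3 : wt q' < 3 * κ := hq'
    change wt (q + q') < 6 * κ
    omega
  have hgap : ∀ q ∈ small, (∃ ξ ∈ a.act.special, ∃ η ∈ a.act.special,
      ∀ v, q (A v) = ξ v + η v) → q ∈ small' := by
    rintro q hq ⟨ξ, hξ, η, hη, h⟩
    have h2 : wt q < 6 * κ := hq
    by_contra h3
    exact hα q (not_lt.1 h3) h2 ⟨ξ, hξ, η, hη, LinearMap.ext h⟩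
  have hvis : ∀ g, ∀ q ∈ a.act.visible A small g, wt q < 3 * κ := by
    rintro g q ⟨hq, hq'⟩
    exact hgap q hq ⟨q.comp A, Or.inl ⟨g, hq'⟩, 0, Or.inl ⟨g, fun v _ => rfl⟩,
      fun v => (add_zero _).symm⟩
  have hker : ∀ q : Dual F2 (Fin 3 × Fin P → F2), wt q < 6 * κ → q.comp A = 0 →
      wt q < 3 * κ := by
    intro q hq hq'
    exact hvis M.C.out q ⟨hq, fun v _ => LinearMap.congr_fun hq' v⟩
  -- sums of functionals which are visible for the gates read by an oracle gate
  have hfr : Module.finrank F2 (Dual F2 (Fin 3 × Fin P → F2)) ≤ 3 * P := by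
    rw [Subspace.dual_finrank_eq, Module.finrank_fintype_fun_eq_card, Fintype.card_prod,
      Fintype.card_fin, Fintype.card_fin]
  have hfinD : Finite (Dual F2 (Fin 3 × Fin P → F2)) :=
    Finite.of_injective (fun q : Dual F2 (Fin 3 × Fin P → F2) =>
      (q : (Fin 3 × Fin P → F2) → F2)) DFunLike.coe_injective
  have hO : ∀ j, ∀ q ∈ Submodule.span F2 (⋃ h ∈ M.args j, a.act.visible A small h),
      q ∈ small := by
    intro j q hq
    obtain ⟨f, hf, rfl⟩ := hE _ (3 * P) hfr _ q hq
    have hf' : ∀ i, wt (f i) < 3 * κ := by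
      intro i
      rcases hf i with h | h
      · rw [h, wt_zero]; omega
      · rw [Set.mem_iUnion₂] at h
        obtain ⟨g, _, hg⟩ := h
        exact hvis g _ hg
    have key : ∀ s : Finset (Fin (3 * P)), wt (∑ i ∈ s, f i) < 3 * κ := by
      intro s
      induction s using Finset.induction_on with
      | empty => rw [Finset.sum_empty, wt_zero]; omega
      | insert i s his ih =>
        rw [Finset.sum_insert his]
        have h1 := wt_add (f i) (∑ i ∈ s, f i)
        have h2 := hf' i
        by_contra hcon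
        refine hα' _ (not_lt.1 hcon) (by omega) ⟨j,
          fun k => if k ∈ insert i s then (f k).comp A else 0, fun k => ?_, ?_⟩
        · by_cases hk : k ∈ insert i s
          · dsimp only
            rw [if_pos hk]
            rcases hf k with h | h
            · left
              rw [h, LinearMap.zero_comp]
            · rw [Set.mem_iUnion₂] at h
              obtain ⟨g, hg, hg'⟩ := h
              exact Or.inr ⟨g, hg, hg'.2⟩
          · exact Or.inl (if_neg hk)
        · rw [Finset.sum_ite_mem, Finset.univ_inter, Finset.sum_insert his]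
          refine LinearMap.ext fun v => ?_
          simp only [LinearMap.comp_apply, LinearMap.add_apply, LinearMap.sum_apply, A]
    have h3 := key Finset.univ
    change wt _ < 6 * κ
    omega
  let L : Submodule F2 (Dual F2 (Fin 3 × Fin P → F2)) :=
    { carrier := {q | wt q < 6 * κ ∧ q.comp A = 0}
      zero_mem' := ⟨by rw [wt_zero]; omega, LinearMap.zero_comp _⟩
      add_mem' := fun {q q'} hq hq' => ⟨by
          have h1 := wt_add q q'
          have h2 := hker q hq.1 hq.2
          have h3 := hker q' hq'.1 hq'.2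
          omega, by rw [LinearMap.add_comp, hq.2, hq'.2, add_zero]⟩
      smul_mem' := fun c q hq => by
        rcases F2.cases c with rfl | rfl
        · rw [zero_smul]
          exact ⟨by rw [wt_zero]; omega, LinearMap.zero_comp _⟩
        · rwa [one_smul] }
  have hq : q₀ ∉ L := by
    intro h
    have h1 : wt q₀ < 6 * κ := h.1
    have h2 : wt q₀ = 3 * P := by
      rw [wt, Finset.filter_true_of_mem]
      · simp
      · intro e _
        rw [hq₀, Finset.sum_pi_single']
        simp
    omega
  rw [← Subspace.dualCoannihilator_dualAnnihilator_eq (W := L), Submodule.mem_dualAnnihilator] at hq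
  push Not at hq
  obtain ⟨d, hd, hd'⟩ := hq
  rw [Submodule.mem_dualCoannihilator] at hd
  refine ⟨d, by rw [← hq₀]; exact (F2.cases _).resolve_left hd', fun r w => ?_⟩
  refine (a.rounds hodd A (fun w => inp ∘ gr ι σ α w)
    (fun w v t => congrArg inp (gr_shift ι σ α w v t)) small small' h0 hadd ?_ hgap hO r).2
    M.C.out d (fun q hq => hd q ⟨hq.1, LinearMap.ext fun v => hq.2 v (a.act.out v)⟩) w
  intro t w d hd
  refine congrArg inp (gr_base ι σ α t w d fun e he => ?_)
  refine hd (LinearMap.proj e) ?_ fun v hv => he v hv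
  change wt _ < 6 * κ
  have h1 : wt (LinearMap.proj e : Dual F2 (Fin 3 × Fin P → F2)) ≤ 1 := by
    rw [wt, Finset.card_le_one]
    intro a ha b hb
    simp only [Finset.mem_filter, Finset.mem_univ, true_and, LinearMap.proj_apply,
      Pi.single_apply] at ha hb
    by_contra hab
    rcases eq_or_ne e a with h2 | h2
    · rcases eq_or_ne e b with h3 | h3
      · exact hab (h2.symm.trans h3)
      · exact hb (if_neg h3)
    · exact ha (if_neg h2)
  omega

end Pool.Agent.H5Red
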