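import Pool.Agent.H5Red.Stm3

/-!
# Piece NUM3 (helper73): arithmetic
-/

set_option autoImplicit false

namespace Pool.Agent.H5Red

namespace NUM3

theorem red_num3 (K κ t m c s J R : ℕ) (hκ : 0 < κ) (hK : K < 24 * κ + 24) (hK' : 24 * κ ≤ K)
    (ht : κ ≤ c * t) (_ht0 : 0 < t)
    (h1 : (2 ^ K * (R + 1) ^ K * (s + J)) ^ (96 * c) < 2 ^ (m * K)) :
    2 ^ (36 * κ) * (s ^ 2 + J * (R + 1) ^ (36 * κ)) < 2 ^ (m * t) := by
  have h3 : (2 ^ K * (R + 1) ^ K * (s + J)) ^ 2 < 2 ^ (m * t) := by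
    have h4 : ((2 ^ K * (R + 1) ^ K * (s + J)) ^ 2) ^ (48 * c) < (2 ^ (m * t)) ^ (48 * c) := by
      calc ((2 ^ K * (R + 1) ^ K * (s + J)) ^ 2) ^ (48 * c) =
            (2 ^ K * (R + 1) ^ K * (s + J)) ^ (96 * c) := by
            rw [← pow_mul]; congr 1; ring
        _ < 2 ^ (m * K) := h1
        _ ≤ 2 ^ (m * (48 * (c * t))) :=
            Nat.pow_le_pow_right (by norm_num) (Nat.mul_le_mul_left _ (by omega))
        _ = (2 ^ (m * t)) ^ (48 * c) := by rw [← pow_mul]; congr 1; ring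
    exact lt_of_pow_lt_pow_left₀ _ (Nat.zero_le _) h4
  refine lt_of_le_of_lt ?_ h3
  have hJ : J ≤ J ^ 2 := Nat.le_self_pow (by norm_num) J
  have h5 : s ^ 2 + J ≤ (s + J) ^ 2 := by nlinarith [Nat.zero_le (s * J)]
  have h6 : 1 ≤ (R + 1) ^ (36 * κ) := Nat.one_le_pow _ _ (Nat.succ_pos R)
  have h7 : s ^ 2 + J * (R + 1) ^ (36 * κ) ≤ (R + 1) ^ (36 * κ) * (s + J) ^ 2 := by
    calc s ^ 2 + J * (R + 1) ^ (36 * κ) ≤
          (R + 1) ^ (36 * κ) * s ^ 2 + (R + 1) ^ (36 * κ) * J := by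
          refine Nat.add_le_add (Nat.le_mul_of_pos_left _ h6) (le_of_eq (Nat.mul_comm _ _))
      _ = (R + 1) ^ (36 * κ) * (s ^ 2 + J) := (Nat.mul_add _ _ _).symm
      _ ≤ (R + 1) ^ (36 * κ) * (s + J) ^ 2 := Nat.mul_le_mul_left _ h5
  calc 2 ^ (36 * κ) * (s ^ 2 + J * (R + 1) ^ (36 * κ)) ≤
        2 ^ (36 * κ) * ((R + 1) ^ (36 * κ) * (s + J) ^ 2) := Nat.mul_le_mul_left _ h7
    _ = 2 ^ (36 * κ) * (R + 1) ^ (36 * κ) * (s + J) ^ 2 := by rw [Nat.mul_assoc]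
    _ ≤ 2 ^ (2 * K) * (R + 1) ^ (2 * K) * (s + J) ^ 2 :=
        Nat.mul_le_mul_right _ (Nat.mul_le_mul (Nat.pow_le_pow_right (by norm_num) (by omega))
          (Nat.pow_le_pow_right (Nat.succ_pos R) (by omega)))
    _ = (2 ^ K * (R + 1) ^ K * (s + J)) ^ 2 := by
        rw [mul_pow, mul_pow, ← pow_mul, ← pow_mul, mul_comm K 2]

end NUM3

theorem t_NUM3 : S_NUM3 := fun K κ t m c s J R hκ hK hK' ht ht0 h1 =>
  NUM3.red_num3 K κ t m c s J R hκ hK hK' ht ht0 h1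

end Pool.Agent.H5Red
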