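import Pool.Agent.H5Thr.Stm

/-!
# Equivariant reductions from the parameterised clique problem: definitions and pieces

`t_ALP : S_ALP` in `Pool/Agent/H5Red/Alp.lean`, `t_GUD (h : S_ALP) : S_GUD` in `Pool/Agent/H5Red/Gud.lean`
(namespace `Pool.Agent.H5Red`, auxiliary lemmas in namespaces `ALP`, `GUD`; no double quotes and no `convert`
in the file).
-/

set_option autoImplicit false

namespace Pool.Agent.H5Red

open Module Equiv Pool.Agent.H5Sym Pool.Agent.H5Lin Pool.Agent.H5Thr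

/-- the translations of the classes -/
def trans {β F : Type} [AddCommGroup F] (v : β → F) : Perm (β × F) :=
  Equiv.prodShear (Equiv.refl β) fun b => Equiv.addRight (v b)

/-- `x` is the adjacency matrix of a graph whose vertices form classes without inner edges, the
classes are indexed by `β`, and the vertices of a class by `F` -/
structure Partite {β F : Type} (x : (β × F) × (β × F) → Bool) : Prop where
  symm : ∀ p q, x (p, q) = x (q, p)
  part : ∀ b a a', x ((b, a), (b, a')) = false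

/-- there is a clique with one vertex in each class -/
def HasClique {β F : Type} (x : (β × F) × (β × F) → Bool) : Prop :=
  ∃ a : β → F, ∀ b b', b ≠ b' → x ((b, a b), (b', a b')) = true

/-- apply `α s` to the component of the block `ι s` -/
def ctr {P m : ℕ} {β : Type} (ι : Bool × Fin P ↪ β)
    (α : Bool × Fin P → ((Fin m → F2) →ₗ[F2] K4)) :
    (β → (Fin m → F2)) →ₗ[F2] (Bool × Fin P → K4) :=
  LinearMap.pi fun s => (α s).comp (LinearMap.proj (ι s))

/-- **ALP** (about 100 lines). Let `S` be the set of the blocks `s` on which `ζ` depends, `|S| = csup ζ`, and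
choose `k s` with `ζ (Pi.single s (k s)) = 1` for `s ∈ S`. The map
`(α, u) ↦ fun s => α s + (u s) • k s` for `s ∈ S` (that is `x ↦ α s x + u s x • k s`), `α s` for `s ∉ S`,
from pairs of `α` with `ζ ∘ ctr ι α = φ` and `u : S → Dual F2 (Fin m → F2)` (`2 ^ (m |S|)` of them) is
injective: `ζ ∘ ctr ι α'` applied to `Pi.single (ι s) x` is `φ (Pi.single (ι s) x) + u s x`, so `α'` determines
`u`, and then `α`. -/
def S_ALP : Prop := ∀ (P m : ℕ) (β : Type) [Finite β] (ι : Bool × Fin P ↪ β)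
  (ζ : Dual F2 (Bool × Fin P → K4)) (φ : Dual F2 (β → (Fin m → F2))),
  Nat.card {α : Bool × Fin P → ((Fin m → F2) →ₗ[F2] K4) // ζ.comp (ctr ι α) = φ} *
    2 ^ (m * csup ζ) ≤ Nat.card (Bool × Fin P → ((Fin m → F2) →ₗ[F2] K4))

/-- **GUD** (about 100 lines, union bound). For each of the at most `2 ^ (3 P)` functionals `q` and each
`φ ∈ Φ` (for `3 κ ≤ wt q < 6 κ`), and each `φ ∈ Ψ` (for `q.comp (bdry (idn P) σ) ≠ 0`, so that
`csup ≥ 1`), the number of the `α` with `(q.comp (bdry (idn P) σ)).comp (ctr ι α) = φ` is bounded by ALP. So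
the number of all bad `α` times `2 ^ (m t)` is at most
`2 ^ (3 P) * (|Φ| + |Ψ| * 2 ^ (m (t - 1)))` times the number of all `α`. -/
def S_GUD : Prop := ∀ (P m κ t : ℕ) (β : Type) [Finite β] (ι : Bool × Fin P ↪ β)
  (σ : Fin 3 → Perm (Fin P)), 0 < t →
  (∀ q : Dual F2 (Fin 3 × Fin P → F2), 3 * κ ≤ wt q → wt q < 6 * κ →
    t ≤ csup (q.comp (bdry (idn P) σ))) →
  ∀ Φ Ψ : Set (Dual F2 (β → (Fin m → F2))),
  2 ^ (3 * P) * (Φ.ncard + Ψ.ncard * 2 ^ (m * (t - 1))) < 2 ^ (m * t) →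
  ∃ α : Bool × Fin P → ((Fin m → F2) →ₗ[F2] K4),
    (∀ q : Dual F2 (Fin 3 × Fin P → F2), 3 * κ ≤ wt q → wt q < 6 * κ →
      q.comp ((bdry (idn P) σ).comp (ctr ι α)) ∉ Φ) ∧
    ∀ q : Dual F2 (Fin 3 × Fin P → F2), q.comp ((bdry (idn P) σ).comp (ctr ι α)) ∈ Ψ →
      q.comp (bdry (idn P) σ) = 0

/-- **GRO** (about 60 lines, arithmetic). For the parameter `K ≥ c (c₀ + 2)` and all large `m` both
alternatives of the main theorem fail for fpt size `s ≤ f * 2 ^ (m c₀)` and at most `(g * (m + 1)) ^ d`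
outputs. -/
def S_GRO : Prop := ∀ c c₀ d f g K : ℕ, 0 < c → c * (c₀ + 2) ≤ K → ∃ m₀ : ℕ, ∀ m, m₀ ≤ m → ∀ s o : ℕ,
  s ≤ f * 2 ^ (m * c₀) → o ≤ (g * (m + 1)) ^ d →
  (2 ^ K * s) ^ c < 2 ^ (m * K) ∧ 2 ^ (c * K) * o < 2 ^ m

end Pool.Agent.H5Red
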