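import Pool.Agent.H5Red.Stm

/-!
# Equivariant reductions: the sharp form, pieces GUD2 and TWO

`t_GUD2 (h : S_ALP) : S_GUD2` in `Pool/Agent/H5Red/Gud2.lean`, `t_TWO : S_TWO` in
`Pool/Agent/H5Red/Two.lean`, `t_GRO2 : S_GRO2` in `Pool/Agent/H5Red/Gro2.lean` (namespace
`Pool.Agent.H5Red`).
-/

set_option autoImplicit false

namespace Pool.Agent.H5Red

open Module Equiv Pool.Agent.H5Sym Pool.Agent.H5Lin Pool.Agent.H5Thr

/-- **GUD2**: the same as GUD with `csup ≥ r` in place of `csup ≥ 1` -/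
def S_GUD2 : Prop := ∀ (P m κ t r : ℕ) (β : Type) [Finite β] (ι : Bool × Fin P ↪ β)
  (σ : Fin 3 → Perm (Fin P)), r ≤ t →
  (∀ q : Dual F2 (Fin 3 × Fin P → F2), 3 * κ ≤ wt q → wt q < 6 * κ →
    t ≤ csup (q.comp (bdry (idn P) σ))) →
  ∀ Φ Ψ : Set (Dual F2 (β → (Fin m → F2))),
  2 ^ (3 * P) * (Φ.ncard + Ψ.ncard * 2 ^ (m * (t - r))) < 2 ^ (m * t) →
  ∃ α : Bool × Fin P → ((Fin m → F2) →ₗ[F2] K4),
    (∀ q : Dual F2 (Fin 3 × Fin P → F2), 3 * κ ≤ wt q → wt q < 6 * κ →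
      q.comp ((bdry (idn P) σ).comp (ctr ι α)) ∉ Φ) ∧
    ∀ q : Dual F2 (Fin 3 × Fin P → F2), q.comp ((bdry (idn P) σ).comp (ctr ι α)) ∈ Ψ →
      csup (q.comp (bdry (idn P) σ)) < r

/-- **TWO** (about 70 lines). Let `ζ = q.comp (bdry (idn P) σ)` and `ζ s` its restriction to the block `s`,
`ζ (false, i) a = ∑ c, q (Pi.single (c, i) 1) * ell c a`,
`ζ (true, j) a = ∑ c, q (Pi.single (c, (σ c).symm j) 1) * ell c a`. The sum of the `ζ (false, i)` over all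
`i` is equal to the sum of the `ζ (true, j)` over all `j` (for `a : K4` evaluate `ζ` at the vector that is
`a` at all blocks: `bdry (idn P) σ (fun _ => a) = 0` since `ell c a + ell c a = 0`, so the sum of all
`ζ s a` is `0`). If `ζ` depends on at most one block `s` the sum of all is `ζ s`, so `ζ s = 0` and
`ζ = 0`. -/
def S_TWO : Prop := ∀ (P : ℕ) (σ : Fin 3 → Perm (Fin P)) (q : Dual F2 (Fin 3 × Fin P → F2)),
  csup (q.comp (bdry (idn P) σ)) < 2 → q.comp (bdry (idn P) σ) = 0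

/-- **GRO2** (about 60 lines, arithmetic). For the parameter `K ≥ c (c₀ + 1)` and all large `m` both
alternatives of the main theorem fail for fpt size `s ≤ f * 2 ^ (m c₀)` and at most
`f * 2 ^ (m c₁)` outputs, written with the exponents multiplied by `e`: `c₁ = 2 - 1 / e`. -/
def S_GRO2 : Prop := ∀ c c₀ e f K : ℕ, 0 < c → 0 < e → c * (c₀ + 1) ≤ K → ∃ m₀ : ℕ, ∀ m, m₀ ≤ m →
  ∀ s o : ℕ, s ≤ f * 2 ^ (m * c₀) → o ^ e ≤ f * 2 ^ (m * (2 * e - 1)) →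
  (2 ^ K * s) ^ c < 2 ^ (m * K) ∧ 2 ^ (c * K) * o < 2 ^ (2 * m)

end Pool.Agent.H5Red
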