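import Pool.Agent.H5Red.Gr

/-!
# Equivariant Turing reductions: pieces EXT, ZC, GRO3

`t_EXT : S_EXT` in `Pool/Agent/H5Red/Ext.lean`, `t_ZC : S_ZC` in `Zc.lean`, `t_GRO3 : S_GRO3` in `Gro3.lean`,
`t_NUM3 : S_NUM3` in `Num3.lean` (namespace `Pool.Agent.H5Red`, auxiliary lemmas in sub-namespaces, no
double quotes, no `convert`).
-/

set_option autoImplicit false

namespace Pool.Agent.H5Red

open Module Equiv Pool.Agent.H5Sym Pool.Agent.H5Lin Pool.Agent.H5Thr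

/-- **EXT** (about 50 lines). A linearly independent subset of `S` with the same span
(`exists_linearIndependent`) has at most `n` elements; the coefficients are `0` or `1`; pad with zeros. -/
def S_EXT : Prop := ∀ (U : Type) [AddCommGroup U] [Module F2 U] [Finite U] (n : ℕ),
  Module.finrank F2 U ≤ n → ∀ (S : Set U), ∀ q ∈ Submodule.span F2 S,
  ∃ f : Fin n → U, (∀ i, f i = 0 ∨ f i ∈ S) ∧ q = ∑ i, f i

/-- **ZC** (about 80 lines). Apply `special_card` (`Pool/Agent/H5Lin/Special.lean`) to the action of `V` on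
the type `Z` of the pairs `(j, h)` with `j : J`, `h : Fin n → Option Y`, all `h i` in `args j` (or `none`),
which has at most `|J| * (R + 1) ^ n` elements: a sum of functionals `f i` with `f i = 0` (take
`h i = none`) or vanishing on the stabiliser of `h i ∈ args j` vanishes on the stabiliser of `(j, h)`. -/
def S_ZC : Prop := ∀ (V J Y : Type) [AddCommGroup V] [Module F2 V] [Finite V] [Finite J] [Finite Y]
  (τ : V → Perm J) (μ : V → Perm Y) (args : J → Set Y) (R n : ℕ),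
  (∀ u v, τ (u + v) = τ u * τ v) → (∀ u v, μ (u + v) = μ u * μ v) →
  (∀ v j y, y ∈ args j → μ v y ∈ args (τ v j)) → (∀ j, (args j).ncard ≤ R) →
  {ξ : Dual F2 V | ∃ j, ∃ f : Fin n → Dual F2 V,
    (∀ i, f i = 0 ∨ ∃ y ∈ args j, ∀ v, μ v y = y → f i v = 0) ∧ ξ = ∑ i, f i}.ncard ≤
      Nat.card J * (R + 1) ^ n

/-- **NUM3** (about 50 lines, arithmetic; compare `red_num2` in `Pool/Agent/H5Red/Main2.lean`). -/
def S_NUM3 : Prop := ∀ K κ t m c s J R : ℕ, 0 < κ → K < 24 * κ + 24 → 24 * κ ≤ K → κ ≤ c * t → 0 < t →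
  (2 ^ K * (R + 1) ^ K * (s + J)) ^ (96 * c) < 2 ^ (m * K) →
  2 ^ (36 * κ) * (s ^ 2 + J * (R + 1) ^ (36 * κ)) < 2 ^ (m * t)

/-- **GRO3** (about 60 lines, arithmetic; compare `t_GRO` in `Pool/Agent/H5Red/Gro.lean`). -/
def S_GRO3 : Prop := ∀ c c₀ d f g K : ℕ, 0 < c → c * (c₀ + 2) ≤ K → ∃ m₀ : ℕ, ∀ m, m₀ ≤ m →
  ∀ s R : ℕ, s ≤ f * 2 ^ (m * c₀) → R ≤ (g * (m + 1)) ^ d →
  (2 ^ K * (R + 1) ^ K * s) ^ c < 2 ^ (m * K)

end Pool.Agent.H5Red
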