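import Pool.Agent.H5Red.Stm3

/-!
# Circuits with oracle gates: definitions, and the induction on the rounds
-/

set_option autoImplicit false

namespace Pool.Agent.H5Red

open Module Equiv Pool.Agent.H5Sym Pool.Agent.H5Lin Pool.Agent.H5Thr

universe u

/-- A circuit with oracle gates: the circuit `C` has further inputs, one for each oracle gate, which hold
the answers. In each round every oracle gate `j` reads the values of the gates in `args j` and computes its
next answer by an arbitrary function `fn j` of them. -/
structure OracleCircuit (T : Type) (D : Type u) where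
  /-- the names of the oracle gates -/
  J : Type
  /-- the circuit -/
  C : LCircuit.{0, u} (T ⊕ J) D
  /-- the gates which are read by an oracle gate -/
  args : J → Set C.Gate
  /-- the function which is computed by an oracle gate -/
  fn : J → (C.Gate → D) → D
  /-- it depends only on the values of the gates which are read -/
  loc : ∀ j y y', (∀ h ∈ args j, y h = y' h) → fn j y = fn j y'
  /-- the answer at the beginning -/
  start : D

namespace OracleCircuit

variable {T : Type} {D : Type u}

/-- the answers after `r` rounds -/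
noncomputable def ans (M : OracleCircuit T D) (x : T → D) : ℕ → M.J → D
  | 0 => fun _ => M.start
  | r + 1 => fun j => M.fn j fun h => M.C.eval (Sum.elim x (M.ans x r)) h

/-- the output after `r` rounds -/
noncomputable def output (M : OracleCircuit T D) (r : ℕ) (x : T → D) : D :=
  M.C.eval (Sum.elim x (M.ans x r)) M.C.out

/-- An action of the group `V` on the circuit with oracle gates: on the circuit and on the names of the
oracle gates, such that the oracle gates are mapped to oracle gates with the corresponding function. -/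
structure Action (M : OracleCircuit T D) {V : Type} [AddCommGroup V] (ρ : V → Perm T) where
  /-- the action on the oracle gates -/
  orc : V → Perm M.J
  orc_add : ∀ u v, orc (u + v) = orc u * orc v
  /-- the action on the circuit -/
  act : M.C.Action fun v => Equiv.sumCongr (ρ v) (orc v)
  args : ∀ v j h, h ∈ M.args j → act.gate v h ∈ M.args (orc v j)
  fn : ∀ v j y, M.fn (orc v j) y = M.fn j fun h => y (act.gate v h)

variable {M : OracleCircuit T D} {V : Type} [AddCommGroup V] [Module F2 V] [Finite V]
  {ρ : V → Perm T} (a : M.Action ρ)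

theorem Action.orc_zero : a.orc 0 = 1 := by
  have := a.orc_add 0 0
  rw [add_zero] at this
  exact left_eq_mul.1 this

/-- the stabiliser of an oracle gate -/
def Action.ostab (j : M.J) : Submodule F2 V where
  carrier := {v | a.orc v j = j}
  zero_mem' := by
    rw [Set.mem_ofPred_eq, a.orc_zero]; rfl
  add_mem' := by
    intro u v hu hv
    rw [Set.mem_ofPred_eq] at hu hv ⊢
    rw [a.orc_add, Equiv.Perm.mul_apply, hv, hu]
  smul_mem' := by
    intro c v hv
    rcases F2.cases c with rfl | rfl
    · rw [zero_smul, Set.mem_ofPred_eq, a.orc_zero]; rfl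
    · rwa [one_smul]

theorem Action.mem_ostab {j : M.J} {v : V} : v ∈ a.ostab j ↔ a.orc v j = j := Iff.rfl

theorem Action.ans_equiv {v : V} {x y : T → D} (hxy : ∀ t, y (ρ v t) = x t) :
    ∀ r j, M.ans y r (a.orc v j) = M.ans x r j := by
  intro r
  induction r with
  | zero => intro j; rfl
  | succ r ih =>
    intro j
    change M.fn (a.orc v j) _ = M.fn j _
    rw [a.fn]
    congr 1
    funext h
    refine a.act.eval (fun t => ?_) h
    rcases t with t | t
    · exact hxy t
    · exact ih t

/-- **the induction on the rounds** -/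
theorem Action.rounds [Finite M.C.Gate] (hodd : M.C.OddFields) {W : Type} [AddCommGroup W]
    [Module F2 W] [Finite W] (A : V →ₗ[F2] W) (ω : W → T → D)
    (hω : ∀ w v t, ω (w + A v) (ρ v t) = ω w t)
    (small small' : Set (Dual F2 W)) (h0 : 0 ∈ small')
    (hadd : ∀ q ∈ small', ∀ q' ∈ small', q + q' ∈ small)
    (base : ∀ t w d, (∀ q ∈ small, (∀ v, ρ v t = t → q (A v) = 0) → q d = 0) → ω (w + d) t = ω w t)
    (gap : ∀ q ∈ small, (∃ ξ ∈ a.act.special, ∃ η ∈ a.act.special, ∀ v, q (A v) = ξ v + η v) →
      q ∈ small')
    (hO : ∀ j, ∀ q ∈ Submodule.span F2 (⋃ h ∈ M.args j, a.act.visible A small h), q ∈ small) :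
    ∀ r, (∀ j d, (∀ q ∈ small, (∀ v, a.orc v j = j → q (A v) = 0) → q d = 0) →
        ∀ w, M.ans (ω (w + d)) r j = M.ans (ω w) r j) ∧
      ∀ g d, (∀ q ∈ a.act.visible A small g, q d = 0) → ∀ w,
        M.C.eval (Sum.elim (ω (w + d)) (M.ans (ω (w + d)) r)) g =
          M.C.eval (Sum.elim (ω w) (M.ans (ω w) r)) g := by
  have hω' : ∀ r w v t, Sum.elim (ω (w + A v)) (M.ans (ω (w + A v)) r)
      (Equiv.sumCongr (ρ v) (a.orc v) t) = Sum.elim (ω w) (M.ans (ω w) r) t := by
    intro r w v t
    rcases t with t | t
    · exact hω w v t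
    · exact a.ans_equiv (hω w v) r t
  have hcore : ∀ r, (∀ j d, (∀ q ∈ small, (∀ v, a.orc v j = j → q (A v) = 0) → q d = 0) →
        ∀ w, M.ans (ω (w + d)) r j = M.ans (ω w) r j) →
      ∀ g d, (∀ q ∈ a.act.visible A small g, q d = 0) → ∀ w,
        M.C.eval (Sum.elim (ω (w + d)) (M.ans (ω (w + d)) r)) g =
          M.C.eval (Sum.elim (ω w) (M.ans (ω w) r)) g := by
    intro r hr
    refine a.act.core hodd A (fun w => Sum.elim (ω w) (M.ans (ω w) r)) (hω' r) small small' h0
      hadd ?_ gap
    intro t w d hd
    rcases t with t | t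
    · refine base t w d fun q hq hq' => hd q hq fun v hv => hq' v ?_
      exact Sum.inl_injective hv
    · refine hr t d (fun q hq hq' => hd q hq fun v hv => hq' v ?_) w
      exact Sum.inr_injective hv
  intro r
  induction r with
  | zero => exact ⟨fun j d _ w => rfl, hcore 0 fun j d _ w => rfl⟩
  | succ r ih =>
    have hstep : ∀ j d, (∀ q ∈ small, (∀ v, a.orc v j = j → q (A v) = 0) → q d = 0) →
        ∀ w, M.ans (ω (w + d)) (r + 1) j = M.ans (ω w) (r + 1) j := by
      intro j d hd w
      obtain ⟨v, hv, hv'⟩ := exists_correction A (a.ostab j)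
        (Submodule.span F2 (⋃ h ∈ M.args j, a.act.visible A small h)) d
        (fun q hq hq' => hd q (hO j q hq) hq')
      change M.fn j _ = M.fn j _
      have h1 : M.fn j (fun h => M.C.eval (Sum.elim (ω w) (M.ans (ω w) r)) h) =
          M.fn j (fun h => M.C.eval (Sum.elim (ω w) (M.ans (ω w) r)) (a.act.gate v h)) := by
        have h2 := a.fn v j (fun h => M.C.eval (Sum.elim (ω w) (M.ans (ω w) r)) h)
        rwa [(a.mem_ostab).1 hv] at h2
      rw [h1]
      refine M.loc j _ _ fun h hh => ?_
      have h3 : M.C.eval (Sum.elim (ω (w + d)) (M.ans (ω (w + d)) r)) h =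
          M.C.eval (Sum.elim (ω (w + (d + A v))) (M.ans (ω (w + (d + A v))) r))
            (a.act.gate v h) := by
        refine (a.act.eval (fun t => ?_) h).symm
        have h4 := hω' r (w + d) v t
        rwa [add_assoc] at h4
      rw [h3]
      refine ih.2 _ _ (fun q hq => hv' q (Submodule.subset_span ?_)) w
      rw [Set.mem_iUnion₂]
      refine ⟨h, hh, hq.1, fun u hu => hq.2 u ?_⟩
      rw [a.act.gate_comm, hu]
    exact ⟨hstep, hcore (r + 1) hstep⟩

end OracleCircuit

end Pool.Agent.H5Red
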