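import Pool.Agent.H5Red.Stm2

/-!
# TWO: a functional on the boundaries which depends on at most one block is zero
-/

set_option autoImplicit false

namespace Pool.Agent.H5Red

open Module Equiv Pool.Agent.H5Sym Pool.Agent.H5Lin Pool.Agent.H5Thr

namespace TWO

theorem csup_eq {β : Type} [inst : DecidableEq β] (ζ : Dual F2 (β → K4)) :
    csup ζ = Nat.card {b : β // ∃ a : K4, ζ (Pi.single b a) ≠ 0} := by
  have h : inst = (fun a b => Classical.propDecidable (a = b)) := Subsingleton.elim _ _
  subst h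
  rfl

theorem add_self (x : F2) : x + x = 0 := by
  rcases F2.cases x with rfl | rfl <;> rfl

end TWO

theorem t_TWO : S_TWO := by
  intro P σ q h
  rw [TWO.csup_eq] at h
  by_contra hne
  have hex : ∃ (b : Bool × Fin P) (a : K4), (q.comp (bdry (idn P) σ)) (Pi.single b a) ≠ 0 := by
    by_contra hc
    push Not at hc
    refine hne (LinearMap.pi_ext fun b a => ?_)
    rw [hc b a, LinearMap.zero_apply]
  obtain ⟨b₀, a₀, hb₀⟩ := hex
  have hsub : ∀ b : Bool × Fin P, b ≠ b₀ → (q.comp (bdry (idn P) σ)) (Pi.single b a₀) = 0 := by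
    intro b hb
    by_contra hc
    have h1 : Nat.card {b : Bool × Fin P // ∃ a : K4, (q.comp (bdry (idn P) σ)) (Pi.single b a) ≠ 0} ≤ 1 := by
      omega
    rw [Finite.card_le_one_iff_subsingleton] at h1
    have h2 := Subsingleton.elim
      (⟨b, a₀, hc⟩ : {b : Bool × Fin P // ∃ a : K4, (q.comp (bdry (idn P) σ)) (Pi.single b a) ≠ 0}) ⟨b₀, a₀, hb₀⟩
    exact hb (congrArg Subtype.val h2)
  have hz : (q.comp (bdry (idn P) σ)) (fun _ => a₀) = 0 := by
    have : bdry (idn P) σ (fun _ => a₀) = 0 := by
      funext e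
      exact TWO.add_self _
    rw [LinearMap.comp_apply, this, map_zero]
  have hs : (fun _ : Bool × Fin P => a₀) = ∑ b : Bool × Fin P, Pi.single b a₀ := by
    funext b
    rw [Finset.sum_apply, Finset.sum_eq_single b]
    · rw [Pi.single_eq_same]
    · intro c _ hc
      exact Pi.single_eq_of_ne (Ne.symm hc) _
    · intro hb
      exact absurd (Finset.mem_univ b) hb
  rw [hs, map_sum, Finset.sum_eq_single b₀ (fun b _ hb => hsub b hb)
    (fun hb => absurd (Finset.mem_univ b₀) hb)] at hz
  exact hb₀ hz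

end Pool.Agent.H5Red
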