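import Pool.Agent.H5Red.Stm3

/-!
# Piece ZC
-/

set_option autoImplicit false

namespace Pool.Agent.H5Red

open Module Equiv Pool.Agent.H5Sym Pool.Agent.H5Lin Pool.Agent.H5Thr

namespace ZC

section action

variable {V J Y : Type} [AddCommGroup V] [Module F2 V] [Finite V] {n : ℕ} (τ : V → Perm J) (μ : V → Perm Y) (args : J → Set Y)
  (hτ : ∀ u v, τ (u + v) = τ u * τ v) (hμ : ∀ u v, μ (u + v) = μ u * μ v)
  (ha : ∀ v j y, y ∈ args j → μ v y ∈ args (τ v j))

/-- the pairs of an element of `J` and of at most `n` of its arguments -/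
def Z (n : ℕ) (args : J → Set Y) : Type :=
  {z : J × (Fin n → Option Y) // ∀ i y, z.2 i = some y → y ∈ args z.1}

/-- the action -/
def g (v : V) (z : Z n args) : Z n args :=
  ⟨(τ v z.1.1, fun i => (z.1.2 i).map (μ v)), by
    intro i y h
    obtain ⟨y0, h0, rfl⟩ := Option.map_eq_some_iff.1 h
    exact ha v _ _ (z.2 i y0 h0)⟩

include hτ hμ in
theorem g_add (u v : V) (z : Z n args) : g τ μ args ha (u + v) z = g τ μ args ha u (g τ μ args ha v z) := by
  apply Subtype.ext
  unfold g
  refine Prod.ext ?_ ?_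
  · show τ (u + v) z.1.1 = τ u (τ v z.1.1)
    rw [hτ, Perm.mul_apply]
  · funext i
    show (z.1.2 i).map (μ (u + v)) = ((z.1.2 i).map (μ v)).map (μ u)
    rw [hμ, Option.map_map]
    rfl

include hτ hμ in
theorem g_zero (z : Z n args) : g τ μ args ha 0 z = z := by
  apply Subtype.ext
  unfold g
  refine Prod.ext ?_ ?_
  · show τ 0 z.1.1 = z.1.1
    rw [tau_zero τ hτ]
    rfl
  · funext i
    show (z.1.2 i).map (μ 0) = z.1.2 i
    rw [tau_zero μ hμ]
    cases z.1.2 i <;> rfl

include hτ hμ in
theorem g_two (v : V) (z : Z n args) : g τ μ args ha v (g τ μ args ha v z) = z := by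
  rw [← g_add τ μ args hτ hμ ha, add_self_mod, g_zero τ μ args hτ hμ ha]

/-- the action by permutations -/
def ρ (v : V) : Perm (Z n args) where
  toFun := g τ μ args ha v
  invFun := g τ μ args ha v
  left_inv := g_two τ μ args hτ hμ ha v
  right_inv := g_two τ μ args hτ hμ ha v

theorem ρ_add (u v : V) : ρ (n := n) τ μ args hτ hμ ha (u + v) = ρ τ μ args hτ hμ ha u * ρ τ μ args hτ hμ ha v := by
  ext1 z
  exact g_add τ μ args hτ hμ ha u v z

end action

instance {J Y : Type} [Finite J] [Finite Y] (n : ℕ) (args : J → Set Y) : Finite (Z n args) := by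
  unfold Z
  infer_instance

theorem card_Z {J Y : Type} [Finite J] [Finite Y] (n R : ℕ) (args : J → Set Y) (h : ∀ j, (args j).ncard ≤ R) :
    Nat.card (Z n args) ≤ Nat.card J * (R + 1) ^ n := by
  classical
  have : Fintype J := Fintype.ofFinite J
  let ψ : (Σ j : J, (Fin n → Option (args j))) → Z n args := fun p =>
    ⟨(p.1, fun i => (p.2 i).map Subtype.val), by
      intro i y hy
      obtain ⟨y0, -, rfl⟩ := Option.map_eq_some_iff.1 hy
      exact y0.2⟩
  have hψ : Function.Surjective ψ := by
    rintro ⟨⟨j, f⟩, hf⟩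
    have key : ∀ i, ∃ o : Option (args j), o.map Subtype.val = f i := by
      intro i
      rcases hfi : f i with - | y
      · exact ⟨none, rfl⟩
      · exact ⟨some ⟨y, hf i y hfi⟩, rfl⟩
    choose o ho using key
    refine ⟨⟨j, o⟩, Subtype.ext (Prod.ext rfl (funext ho))⟩
  refine (Nat.card_le_card_of_surjective ψ hψ).trans ?_
  rw [Nat.card_sigma]
  calc ∑ j : J, Nat.card (Fin n → Option (args j)) ≤ ∑ _j : J, (R + 1) ^ n := by
        refine Finset.sum_le_sum fun j _ => ?_
        rw [Nat.card_fun, Finite.card_option, Nat.card_eq_fintype_card (α := Fin n), Fintype.card_fin]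
        apply Nat.pow_le_pow_left
        have h1 : Nat.card (args j) = (args j).ncard := rfl
        have := h j
        omega
    _ = Nat.card J * (R + 1) ^ n := by
        rw [Finset.sum_const, smul_eq_mul, Finset.card_univ, Nat.card_eq_fintype_card]

end ZC

open ZC in
theorem t_ZC : S_ZC := by
  intro V J Y _ _ _ _ _ τ μ args R n hτ hμ ha hR
  classical
  have : Finite (Dual F2 V) := Finite.of_injective (fun f : Dual F2 V => (f : V → F2)) DFunLike.coe_injective
  refine le_trans (Set.ncard_le_ncard ?_ (Set.toFinite _)) ((special_card (ρ (n := n) τ μ args hτ hμ ha)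
    (ρ_add τ μ args hτ hμ ha)).trans (card_Z n R args hR))
  rintro ξ ⟨j, f, hf, rfl⟩
  have key : ∀ i, ∃ o : Option Y, (∀ y, o = some y → y ∈ args j) ∧ ∀ v, o.map (μ v) = o → f i v = 0 := by
    intro i
    rcases hf i with h | ⟨y, hy, h⟩
    · exact ⟨none, fun y hy => by simp at hy, fun v _ => by rw [h]; rfl⟩
    · exact ⟨some y, fun y' hy' => by
        rw [Option.some.injEq] at hy'
        rw [← hy']
        exact hy, fun v hv => h v (by
          rw [Option.map_some, Option.some.injEq] at hv
          exact hv)⟩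
  choose o ho1 ho2 using key
  refine ⟨⟨(j, o), fun i y hy => ho1 i y hy⟩, fun v hv => ?_⟩
  rw [LinearMap.sum_apply]
  refine Finset.sum_eq_zero fun i _ => ho2 i v ?_
  have h1 := congrArg Subtype.val hv
  have h2 := congrArg Prod.snd h1
  exact congrFun h2 i

end Pool.Agent.H5Red
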